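import Mathlib

/-!
# Codes for vectors of `F_2^4`, and small kernel loops
-/

set_option autoImplicit false

namespace Pool.Agent.Helper64.Rds

/-- The vector space `F_2^4`. -/
abbrev V := Fin 4 → ZMod 2

/-- The number coding a vector. -/
def cd (x : V) : ℕ := (x 0).val + 2 * (x 1).val + 4 * (x 2).val + 8 * (x 3).val

/-- The vector coded by a number. -/
def dc (n : ℕ) : V := ![(n % 2 : ℕ), (n / 2 % 2 : ℕ), (n / 4 % 2 : ℕ), (n / 8 % 2 : ℕ)]

theorem cd_add : ∀ x y : V, cd (x + y) = cd x ^^^ cd y := by decide +kernel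

theorem dc_cd : ∀ x : V, dc (cd x) = x := by decide +kernel

theorem cd_dc : ∀ n < 16, cd (dc n) = n := by decide +kernel

theorem cd_lt : ∀ x : V, cd x < 16 := by decide +kernel

theorem cd_zero : cd 0 = 0 := by decide +kernel

theorem cd_inj {x y : V} (h : cd x = cd y) : x = y := by
  rw [← dc_cd x, ← dc_cd y, h]

theorem cd_eq_zero {x : V} : cd x = 0 ↔ x = 0 :=
  ⟨fun h => cd_inj (h.trans cd_zero.symm), fun h => h ▸ cd_zero⟩

theorem dc_xor {m n : ℕ} (hm : m < 16) (hn : n < 16) : dc (m ^^^ n) = dc m + dc n := by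
  have h := cd_add (dc m) (dc n)
  rw [cd_dc m hm, cd_dc n hn] at h
  rw [← h, dc_cd]

theorem add_self (x : V) : x + x = 0 := by
  funext i
  exact CharTwo.add_self_eq_zero _

theorem add_self_left (x y : V) : x + (x + y) = y := by
  rw [← add_assoc, add_self, zero_add]

theorem add_eq_zero {x y : V} : x + y = 0 ↔ x = y := by
  constructor
  · intro h
    have : x + (x + y) = x + 0 := by rw [h]
    rw [add_self_left, add_zero] at this
    exact this.symm
  · rintro rfl
    exact add_self x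

theorem neg_self (x : V) : -x = x := by
  rw [neg_eq_iff_add_eq_zero]
  exact add_self x

theorem add_right_inj' {x y z : V} : x + y = x + z ↔ y = z := by
  simp

/-- Additive maps. -/
def Addi {A B : Type*} [Add A] [Add B] (f : A → B) : Prop := ∀ x y, f (x + y) = f x + f y

theorem Addi.zero {A B : Type*} [AddGroup A] [AddGroup B] {f : A → B} (h : Addi f) : f 0 = 0 := by
  have := h 0 0
  simpa using this

theorem bool_cases (a : ZMod 2) : a = 0 ∨ a = 1 := by
  revert a; decide

theorem ne_zero_iff {a : ZMod 2} : a ≠ 0 ↔ a = 1 := by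
  revert a; decide

theorem ne_one_iff {a : ZMod 2} : a ≠ 1 ↔ a = 0 := by
  revert a; decide

/-- The standard basis. -/
def e (i : Fin 4) : V := Pi.single i 1

theorem expand (x : V) : x = x 0 • e 0 + (x 1 • e 1 + (x 2 • e 2 + x 3 • e 3)) := by
  revert x; decide +kernel

/-- The additive map with given columns. -/
def lin {A : Type*} [AddCommGroup A] [Module (ZMod 2) A] (c0 c1 c2 c3 : A) (x : V) : A :=
  x 0 • c0 + (x 1 • c1 + (x 2 • c2 + x 3 • c3))

theorem lin_add {A : Type*} [AddCommGroup A] [Module (ZMod 2) A] (c0 c1 c2 c3 : A) :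
    Addi (lin c0 c1 c2 c3) := by
  intro x y
  simp only [lin, Pi.add_apply, add_smul]
  abel

theorem add_smul' {A B : Type*} [AddCommGroup A] [Module (ZMod 2) A] [AddCommGroup B]
    [Module (ZMod 2) B] {f : A → B} (h : Addi f) (a : ZMod 2) (x : A) : f (a • x) = a • f x := by
  rcases bool_cases a with rfl | rfl
  · simp [h.zero]
  · simp

theorem eq_lin {A : Type*} [AddCommGroup A] [Module (ZMod 2) A] {f : V → A} (h : Addi f) (x : V) :
    f x = lin (f (e 0)) (f (e 1)) (f (e 2)) (f (e 3)) x := by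
  conv_lhs => rw [expand x]
  rw [h, h, h, add_smul' h, add_smul' h, add_smul' h, add_smul' h, lin]

theorem add_ext {A : Type*} [AddCommGroup A] [Module (ZMod 2) A] {f g : V → A} (hf : Addi f)
    (hg : Addi g) (h : ∀ i, f (e i) = g (e i)) : f = g := by
  funext x
  rw [eq_lin hf, eq_lin hg, h, h, h, h]

/-- `lin` on codes. -/
def lin4 (c0 c1 c2 c3 b : ℕ) : ℕ :=
  (c0 * (b % 2)) ^^^ ((c1 * (b / 2 % 2)) ^^^ ((c2 * (b / 4 % 2)) ^^^ (c3 * (b / 8 % 2))))

theorem cd_smul (a : ZMod 2) (x : V) : cd (a • x) = cd x * a.val := by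
  rcases bool_cases a with rfl | rfl
  · simp [cd_zero]
  · simp [show (1 : ZMod 2).val = 1 from rfl]

theorem cd_bits : ∀ x : V, cd x % 2 = (x 0).val ∧ cd x / 2 % 2 = (x 1).val ∧
    cd x / 4 % 2 = (x 2).val ∧ cd x / 8 % 2 = (x 3).val := by decide +kernel

theorem cd_lin (c0 c1 c2 c3 x : V) :
    cd (lin c0 c1 c2 c3 x) = lin4 (cd c0) (cd c1) (cd c2) (cd c3) (cd x) := by
  obtain ⟨h0, h1, h2, h3⟩ := cd_bits x
  rw [lin, cd_add, cd_add, cd_add, cd_smul, cd_smul, cd_smul, cd_smul, lin4, h0, h1, h2, h3]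

theorem cd_map {f : V → V} (h : Addi f) (x : V) :
    cd (f x) = lin4 (cd (f (e 0))) (cd (f (e 1))) (cd (f (e 2))) (cd (f (e 3))) (cd x) := by
  rw [eq_lin h, cd_lin]

/-- Bounded check used by the kernel. -/
def allb (p : ℕ → Bool) : ℕ → Bool
  | 0 => true
  | n + 1 => p n && allb p n

theorem allb_spec {p : ℕ → Bool} {n : ℕ} (h : allb p n = true) : ∀ m < n, p m = true := by
  induction n with
  | zero => intro m hm; omega
  | succ n ih =>
    rw [allb, Bool.and_eq_true] at h
    intro m hm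
    rcases Nat.lt_succ_iff_lt_or_eq.mp hm with h' | rfl
    · exact ih h.2 m h'
    · exact h.1

/-- Bounded search used by the kernel. -/
def anyb (p : ℕ → Bool) : ℕ → Bool
  | 0 => false
  | n + 1 => p n || anyb p n

theorem anyb_spec {p : ℕ → Bool} {n : ℕ} (h : anyb p n = true) : ∃ m < n, p m = true := by
  induction n with
  | zero => simp [anyb] at h
  | succ n ih =>
    rw [anyb, Bool.or_eq_true] at h
    rcases h with h | h
    · exact ⟨n, Nat.lt_succ_self n, h⟩
    · obtain ⟨m, hm, hp⟩ := ih h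
      exact ⟨m, Nat.lt_succ_of_lt hm, hp⟩

/-- Bounded counting sum used by the kernel. -/
def cnt (f : ℕ → ℕ) : ℕ → ℕ
  | 0 => 0
  | n + 1 => f n + cnt f n

theorem cnt_eq (f : ℕ → ℕ) (n : ℕ) : cnt f n = ∑ i ∈ Finset.range n, f i := by
  induction n with
  | zero => simp [cnt]
  | succ n ih => rw [cnt, ih, Finset.sum_range_succ, add_comm]

end Pool.Agent.Helper64.Rds
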