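import Pool.Agent.Helper64.Rds.Semi1

/-!
# Counting functions evaluated by the kernel
-/

set_option autoImplicit false

namespace Pool.Agent.Helper64.Rds

/-- Table lookup. -/
def look (t x : ℕ) : ℕ := (t >>> (4 * x)) % 16

/-- Autotopism data: table of `A`, columns of `B⁻¹`, packed `A`, packed `Γ`. -/
abbrev Ent := ℕ × ℕ × ℕ × ℕ × ℕ × ℕ × ℕ

/-- Is the image under an autotopism lexicographically smaller? -/
def less (c0 c1 c2 c3 : ℕ) (E : Ent) : Bool :=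
  Nat.blt (look E.1 (lin4 c0 c1 c2 c3 E.2.1)) c0 ||
  (Nat.beq (look E.1 (lin4 c0 c1 c2 c3 E.2.1)) c0 &&
    (Nat.blt (look E.1 (lin4 c0 c1 c2 c3 E.2.2.1)) c1 ||
    (Nat.beq (look E.1 (lin4 c0 c1 c2 c3 E.2.2.1)) c1 &&
      (Nat.blt (look E.1 (lin4 c0 c1 c2 c3 E.2.2.2.1)) c2 ||
      (Nat.beq (look E.1 (lin4 c0 c1 c2 c3 E.2.2.2.1)) c2 &&
        Nat.blt (look E.1 (lin4 c0 c1 c2 c3 E.2.2.2.2.1)) c3)))))

/-- The number of locally minimal codes. -/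
def tot (L : List Ent) : ℕ :=
  cnt (fun c0 => bif ok1 c0 then
    cnt (fun c1 => bif ok2 c0 c1 then
      cnt (fun c2 => bif ok3 c0 c1 c2 then
        cnt (fun c3 => bif ok4 c0 c1 c2 c3 then
          (bif anyL (less c0 c1 c2 c3) L then 0 else 1) else 0) 16 else 0) 16 else 0) 16 else 0) 16

/-- Check of autotopism data. -/
def autChk (y z : ℕ) (E : Ent) : Bool :=
  okP E.2.2.2.2.2.1 && (okP E.2.2.2.2.2.2 && (okN E.2.1 E.2.2.1 E.2.2.2.1 E.2.2.2.2.1 &&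
  (Nat.blt E.2.1 16 && (Nat.blt E.2.2.1 16 && (Nat.blt E.2.2.2.1 16 && (Nat.blt E.2.2.2.2.1 16 &&
  (allb (fun x => Nat.beq (look E.1 x) (appN E.2.2.2.2.2.1 x)) 16 &&
   allb (fun i => 
    (Nat.beq (mulC y z (appN E.2.2.2.2.2.1 (2 ^ i)) 1)
      (appN E.2.2.2.2.2.2 (mulC y z (2 ^ i) E.2.1)) &&
    (Nat.beq (mulC y z (appN E.2.2.2.2.2.1 (2 ^ i)) 2)
      (appN E.2.2.2.2.2.2 (mulC y z (2 ^ i) E.2.2.1)) &&
    (Nat.beq (mulC y z (appN E.2.2.2.2.2.1 (2 ^ i)) 4)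
      (appN E.2.2.2.2.2.2 (mulC y z (2 ^ i) E.2.2.2.1)) &&
    Nat.beq (mulC y z (appN E.2.2.2.2.2.1 (2 ^ i)) 8)
      (appN E.2.2.2.2.2.2 (mulC y z (2 ^ i) E.2.2.2.2.1)))))) 4)))))))

theorem aut0_spec : allL (autChk (base 0).1 (base 0).2) aut0 = true := by decide +kernel

theorem aut1_spec : allL (autChk (base 1).1 (base 1).2) aut1 = true := by decide +kernel

theorem aut2_spec : allL (autChk (base 2).1 (base 2).2) aut2 = true := by decide +kernel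

theorem base_ns (i : ℕ) (hi : i < 3) : allb (fun a => allb (fun b =>
    !(Nat.beq (mulC (base i).1 (base i).2 (a + 1) (b + 1)) 0)) 15) 15 = true := by
  interval_cases i
  · decide +kernel
  · decide +kernel
  · decide +kernel

/-- Right division table. -/
def RD : ℕ := 0x14278dbefac96350219a74cfde658b30681f5b2ca4d397e0e5a1296d387cf4b0a34d18f6c52b7e90b63ec1492fa758d08a75ec13b946df209dfb37518cea264042e89f3517bdca60cb5243da61f8e9703c69d2874b1ea5f07fb36ea25d914c805984a67be23f1dc0d7c6f5e49382b1a0fedcba98765432100000000000000000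

/-- Left division table. -/
def LD : ℕ := 0x148d27befa63c950c17a942f3e856bd0281b5f6ce4d793a06521a9edb8fc7430a6481df3957b2ec0b9ce3146dfa8572083e57c1a294fd6b09d37fb518c26ea40429fe83517cabd60da5243cb61e9f8703c69d2874b1ea5f07fb36ea25d914c805ba48679c23d1fe0e7f6c5d4a3b28190fedcba98765432100000000000000000

/-- Right division. -/
def rdiv (b c : ℕ) : ℕ := (RD >>> (4 * (16 * b + c))) % 16

/-- Left division. -/
def ldiv (a c : ℕ) : ℕ := (LD >>> (4 * (16 * a + c))) % 16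

/-- Product of the first semifield. -/
def m0 (a b : ℕ) : ℕ := mulC 312 1813 a b

theorem rdiv_spec : allb (fun b => allb (fun a =>
    Nat.beq (rdiv (b + 1) (m0 a (b + 1))) a) 16) 15 = true := by decide +kernel

theorem ldiv_spec : allb (fun a => allb (fun b =>
    Nat.beq (ldiv (a + 1) (m0 (a + 1) b)) b) 16) 15 = true := by decide +kernel

/-- Second column of `A`. -/
def k1 (a0 b0 b1 : ℕ) : ℕ := rdiv b0 (m0 a0 b1)

/-- Third column of `Γ`. -/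
def k2 (a0 b0 b1 : ℕ) : ℕ := m0 (k1 a0 b0 b1) b1

/-- Third column of `B`. -/
def k3 (a0 b0 b1 : ℕ) : ℕ := ldiv a0 (k2 a0 b0 b1)

/-- Third column of `A`. -/
def k4 (a0 b0 b1 : ℕ) : ℕ := rdiv b0 (k2 a0 b0 b1)

/-- Fourth column of `Γ`. -/
def k5 (a0 b0 b1 : ℕ) : ℕ := m0 (k1 a0 b0 b1) (k3 a0 b0 b1)

/-- Fourth column of `B`. -/
def k6 (a0 b0 b1 : ℕ) : ℕ := ldiv a0 (k5 a0 b0 b1)

/-- Fourth column of `A`. -/
def k7 (a0 b0 b1 : ℕ) : ℕ := rdiv b0 (k5 a0 b0 b1)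

/-- The compatibility test with all columns given. -/
def chkM (a1 a2 a3 b1 b2 b3 c0 c1 c2 c3 : ℕ) : Bool :=
  Nat.beq (m0 a1 b1) (lin4 c0 c1 c2 c3 (m0 2 2)) && (Nat.beq (m0 a2 b1) (lin4 c0 c1 c2 c3 (m0 4 2)) &&
  (Nat.beq (m0 a3 b1) (lin4 c0 c1 c2 c3 (m0 8 2)) && (Nat.beq (m0 a2 b2) (lin4 c0 c1 c2 c3 (m0 4 4)) &&
  (Nat.beq (m0 a1 b3) (lin4 c0 c1 c2 c3 (m0 2 8)) && (Nat.beq (m0 a2 b3) (lin4 c0 c1 c2 c3 (m0 4 8)) &&
  (Nat.beq (m0 a3 b2) (lin4 c0 c1 c2 c3 (m0 8 4)) && Nat.beq (m0 a3 b3)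
    (lin4 c0 c1 c2 c3 (m0 8 8))))))))

/-- The test for triples. -/
def chk0 (a0 b0 b1 : ℕ) : Bool :=
  ok1 a0 && (ok2 b0 b1 && (ok1 b0 && chkM (k1 a0 b0 b1) (k4 a0 b0 b1) (k7 a0 b0 b1) b1
    (k3 a0 b0 b1) (k6 a0 b0 b1) (m0 a0 b0) (m0 a0 b1) (k2 a0 b0 b1) (k5 a0 b0 b1)))

theorem aut_count : Nat.beq (cnt (fun a0 => cnt (fun b0 => cnt (fun b1 =>
    bif chk0 a0 b0 b1 then 1 else 0) 16) 16) 16) 18 = true := by decide +kernel

end Pool.Agent.Helper64.Rds
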