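import Pool.Agent.Helper64.Rds.Cnt

/-!
# The number of locally minimal codes, semifield 0
-/

set_option autoImplicit false

namespace Pool.Agent.Helper64.Rds

theorem tot0 : Nat.beq (tot aut0) 1190 = true := by decide +kernel

theorem tot_nil : Nat.beq (tot []) 20160 = true := by decide +kernel

end Pool.Agent.Helper64.Rds
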