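import Pool.Agent.Helper64.Rds.Cnt

/-!
# The number of locally minimal codes, semifield 1
-/

set_option autoImplicit false

namespace Pool.Agent.Helper64.Rds

theorem tot1 : Nat.beq (tot aut1) 224 = true := by decide +kernel

end Pool.Agent.Helper64.Rds
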