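import Pool.Agent.Helper64.Rds.Semi4
import Pool.Agent.Helper64.Rds.Tot0
import Pool.Agent.Helper64.Rds.Tot1
import Pool.Agent.Helper64.Rds.Tot2

/-!
# Counting the classes
-/

set_option autoImplicit false

namespace Pool.Agent.Helper64.Rds

/-- Quadruples of codes. -/
abbrev Q4 := ℕ × ℕ × ℕ × ℕ

/-- The linear map with the given column codes. -/
def ln (n : Q4) : V → V := lin (dc n.1) (dc n.2.1) (dc n.2.2.1) (dc n.2.2.2)

/-- The column codes of a map. -/
def cds (f : V → V) : Q4 := (cd (f (e 0)), cd (f (e 1)), cd (f (e 2)), cd (f (e 3)))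

theorem ln_add (n : Q4) : Addi (ln n) := lin_add _ _ _ _

theorem ln_cds {f : V → V} (h : Addi f) : ln (cds f) = f := by
  funext x
  rw [eq_lin h, ln, cds]
  simp only [dc_cd]

/-- The box of codes. -/
def box : Finset Q4 := Finset.range 16 ×ˢ Finset.range 16 ×ˢ Finset.range 16 ×ˢ Finset.range 16

theorem cds_mem (f : V → V) : cds f ∈ box := by
  simp only [box, cds, Finset.mem_product, Finset.mem_range]
  exact ⟨cd_lt _, cd_lt _, cd_lt _, cd_lt _⟩

theorem cds_ln {n : Q4} (hn : n ∈ box) : cds (ln n) = n := by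
  simp only [box, Finset.mem_product, Finset.mem_range] at hn
  obtain ⟨h0, h1, h2, h3⟩ := hn
  have l0 : ln n (e 0) = dc n.1 := by simp [ln, lin, e]
  have l1 : ln n (e 1) = dc n.2.1 := by simp [ln, lin, e]
  have l2 : ln n (e 2) = dc n.2.2.1 := by simp [ln, lin, e]
  have l3 : ln n (e 3) = dc n.2.2.2 := by simp [ln, lin, e]
  rw [cds, l0, l1, l2, l3, cd_dc _ h0, cd_dc _ h1, cd_dc _ h2, cd_dc _ h3]

/-- Invertibility of codes. -/
def okQ (n : Q4) : Bool := okN n.1 n.2.1 n.2.2.1 n.2.2.2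

theorem ln_inj {n : Q4} (hn : n ∈ box) (h : okQ n = true) : Function.Injective (ln n) := by
  simp only [box, Finset.mem_product, Finset.mem_range] at hn
  obtain ⟨h0, h1, h2, h3⟩ := hn
  apply inj_of_okN
  rw [cd_dc _ h0, cd_dc _ h1, cd_dc _ h2, cd_dc _ h3]
  exact h

theorem okQ_cds {f : V → V} (h : Addi f) (hi : Function.Injective f) : okQ (cds f) = true :=
  okN_of_inj (inj_lin h hi)

/-- The representative semifields. -/
def fb (i : ℕ) : V → V → V := fc (base i).1 (base i).2

theorem fb_nsb {i : ℕ} (hi : i < 3) : Nsb (fb i) := by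
  refine ⟨fun g => fV_l _ _ _ _ _ _ _, fun h => fV_r _ _ _ _ _ _ _, ?_⟩
  intro g h hgh
  by_contra hcon
  push Not at hcon
  have h1 : cd g ≠ 0 := fun h0 => hcon.1 (cd_eq_zero.mp h0)
  have h2 : cd h ≠ 0 := fun h0 => hcon.2 (cd_eq_zero.mp h0)
  have h3 := cd_lt g
  have h4 := cd_lt h
  have h5 := allb_spec (allb_spec (base_ns i hi) (cd g - 1) (by omega)) (cd h - 1) (by omega)
  rw [not_beq, show cd g - 1 + 1 = cd g by omega, show cd h - 1 + 1 = cd h by omega,
    ← cd_fc] at h5
  apply h5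
  change cd (fb i g h) = 0
  rw [hgh, cd_zero]

/-- The bilinear map attached to a semifield and a linear map. -/
def Fl (i : ℕ) (l : V → V) : V → V → V := fun a b => fb i (l a) b

theorem Fl_nsb {i : ℕ} (hi : i < 3) {l : V → V} (hl : Addi l) (hli : Function.Injective l) :
    Nsb (Fl i l) := by
  have h := fb_nsb hi
  refine ⟨fun g => h.l _, ?_, ?_⟩
  · intro x a b
    change fb i (l (a + b)) x = fb i (l a) x + fb i (l b) x
    rw [hl]
    exact h.r x _ _
  · intro g x hgx
    rcases h.ns _ _ hgx with h1 | h1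
    · left
      exact hli (by rw [h1, hl.zero])
    · exact Or.inr h1

/-- Every class is the class of some `Fl`. -/
theorem exists_Fl {S : Set X} (hS : S ∈ Cl) : ∃ i < 3, ∃ n ∈ box, okQ n = true ∧
    S = cls (XF (Fl i (ln n))) := by
  obtain ⟨x, hx, rfl⟩ := hS
  obtain ⟨F, hF, hxF⟩ := exists_bilinear hx
  obtain ⟨i, hi, P, Q, R, Pa, Qa, Ra, Pi, Qi, Ri, hPQR⟩ := isotopic hF
  obtain ⟨P', P'a, P'i, PP', P'P⟩ := exists_inv Pa Pi
  have la : Addi (fun x => P' (Q x)) := by
    intro a b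
    simp only
    rw [Qa, P'a]
  have li : Function.Injective (fun x => P' (Q x)) := P'i.comp Qi
  refine ⟨i, hi, cds (fun x => P' (Q x)), cds_mem _, okQ_cds la li, ?_⟩
  rw [ln_cds la]
  have hN := Fl_nsb hi la li
  have hb : BRel (Fl i (fun x => P' (Q x))) F := by
    refine ⟨Q, R, Qa, Ra, Qi, Ri, ?_⟩
    intro g h
    have := hPQR (P' (Q g)) h
    rw [PP'] at this
    exact this
  rw [cls_eq hx (valid_XF hF) hxF]
  exact (cls_eq (valid_XF hN) (valid_XF hF) (rel_of_brel hF hb)).symm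

/-- Numerical code. -/
def code4 (n : Q4) : ℕ := ((n.1 * 16 + n.2.1) * 16 + n.2.2.1) * 16 + n.2.2.2

theorem less_step {i : ℕ} (hi : i < 3) {E : Ent} (hE : autChk (base i).1 (base i).2 E = true)
    {n : Q4} (hn : n ∈ box) (hok : okQ n = true)
    (hl : less n.1 n.2.1 n.2.2.1 n.2.2.2 E = true) : ∃ n' ∈ box, okQ n' = true ∧
    cls (XF (Fl i (ln n))) = cls (XF (Fl i (ln n'))) ∧ code4 n' < code4 n := by
  obtain ⟨TA, b0, b1, b2, b3, A, Γ⟩ := E
  simp only [autChk, Bool.and_eq_true, Nat.blt_eq] at hE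
  obtain ⟨hA, hΓ, hB, l0, l1, l2, l3, htab, hbas⟩ := hE
  have Aa := lc_add A
  have Ai := lc_inj hA
  have Γa := lc_add Γ
  have Γi := lc_inj hΓ
  set B : V → V := lin (dc b0) (dc b1) (dc b2) (dc b3) with hBdef
  have Ba : Addi B := lin_add _ _ _ _
  have Bi : Function.Injective B := by
    apply inj_of_okN
    rw [cd_dc _ l0, cd_dc _ l1, cd_dc _ l2, cd_dc _ l3]
    exact hB
  have B0 : B (e 0) = dc b0 := by simp [hBdef, lin, e]
  have B1 : B (e 1) = dc b1 := by simp [hBdef, lin, e]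
  have B2 : B (e 2) = dc b2 := by simp [hBdef, lin, e]
  have B3 : B (e 3) = dc b3 := by simp [hBdef, lin, e]
  have hN := fb_nsb hi
  have hid : ∀ a b, fb i (lc A a) b = lc Γ (fb i a (B b)) := by
    apply biadd_ext (F := fun a b => fb i (lc A a) b) (F' := fun a b => lc Γ (fb i a (B b)))
    · intro g
      exact hN.l _
    · intro g x y
      simp only
      rw [Aa]
      exact hN.r _ _ _
    · intro g x y
      simp only
      rw [Ba, hN.l, Γa]
    · intro g x y
      simp only
      rw [← Γa]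
      congr 1
      exact hN.r _ _ _
    · intro j k
      have hj := allb_spec hbas j.val j.isLt
      rw [Bool.and_eq_true, Bool.and_eq_true, Bool.and_eq_true, Nat.beq_eq, Nat.beq_eq,
        Nat.beq_eq, Nat.beq_eq] at hj
      obtain ⟨q0, q1, q2, q3⟩ := hj
      obtain ⟨c0, c1, c2, c3, -⟩ := cd_e
      apply cd_inj
      rw [fb, cd_fc, cd_lc, cd_lc, cd_fc, cd_ei j]
      fin_cases k
      · simp only [Fin.zero_eta]
        rw [c0, B0, cd_dc _ l0]
        exact q0
      · simp only [Fin.mk_one]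
        rw [c1, B1, cd_dc _ l1]
        exact q1
      · simp only [Fin.reduceFinMk]
        rw [c2, B2, cd_dc _ l2]
        exact q2
      · simp only [Fin.reduceFinMk]
        rw [c3, B3, cd_dc _ l3]
        exact q3
  -- the new map
  have la := ln_add n
  have li := ln_inj hn hok
  set l' : V → V := fun x => lc A (ln n (B x)) with hl'
  have l'a : Addi l' := by
    intro x y
    simp only [hl']
    rw [Ba, la, Aa]
  have l'i : Function.Injective l' := Ai.comp (li.comp Bi)
  refine ⟨cds l', cds_mem _, okQ_cds l'a l'i, ?_, ?_⟩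
  · rw [ln_cds l'a]
    have v := valid_XF (Fl_nsb hi la li)
    have v' := valid_XF (Fl_nsb hi l'a l'i)
    obtain ⟨Γ', Γ'a, Γ'i, -, Γ'Γ⟩ := exists_inv Γa Γi
    symm
    apply cls_eq v' v
    apply rel_of_brel (Fl_nsb hi la li)
    refine ⟨B, Γ', Ba, Γ'a, Bi, Γ'i, ?_⟩
    intro g h
    change fb i (ln n (B g)) (B h) = Γ' (fb i (lc A (ln n (B g))) h)
    rw [hid, Γ'Γ]
  · have hcol : ∀ b < 16, look TA (lin4 n.1 n.2.1 n.2.2.1 n.2.2.2 b) = cd (lc A (ln n (dc b))) := by
      intro b hb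
      have hn' := hn
      simp only [box, Finset.mem_product, Finset.mem_range] at hn'
      obtain ⟨h0, h1, h2, h3⟩ := hn'
      have e1 : cd (ln n (dc b)) = lin4 n.1 n.2.1 n.2.2.1 n.2.2.2 b := by
        rw [ln, cd_lin, cd_dc _ h0, cd_dc _ h1, cd_dc _ h2, cd_dc _ h3, cd_dc _ hb]
      have e2 := cd_lt (ln n (dc b))
      rw [e1] at e2
      have := allb_spec htab _ e2
      rw [Nat.beq_eq] at this
      rw [this, cd_lc, e1]
    have hc0 : (cds l').1 = look TA (lin4 n.1 n.2.1 n.2.2.1 n.2.2.2 b0) := by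
      rw [hcol b0 l0, ← B0]; rfl
    have hc1 : (cds l').2.1 = look TA (lin4 n.1 n.2.1 n.2.2.1 n.2.2.2 b1) := by
      rw [hcol b1 l1, ← B1]; rfl
    have hc2 : (cds l').2.2.1 = look TA (lin4 n.1 n.2.1 n.2.2.1 n.2.2.2 b2) := by
      rw [hcol b2 l2, ← B2]; rfl
    have hc3 : (cds l').2.2.2 = look TA (lin4 n.1 n.2.1 n.2.2.1 n.2.2.2 b3) := by
      rw [hcol b3 l3, ← B3]; rfl
    have hm := cds_mem l'
    simp only [box, Finset.mem_product, Finset.mem_range] at hm hn
    simp only [less, Bool.or_eq_true, Bool.and_eq_true, Nat.blt_eq, Nat.beq_eq, ← hc0, ← hc1,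
      ← hc2, ← hc3] at hl
    unfold code4
    omega

/-- The set of locally minimal codes. -/
def TT (L : List Ent) : Finset Q4 :=
  box.filter (fun n => (okQ n && !(anyL (less n.1 n.2.1 n.2.2.1 n.2.2.2) L)) = true)

theorem exists_min {i : ℕ} (hi : i < 3) {L : List Ent}
    (hL : allL (autChk (base i).1 (base i).2) L = true) {S : Set X} :
    ∀ N : ℕ, ∀ n ∈ box, okQ n = true → S = cls (XF (Fl i (ln n))) → code4 n = N →
      ∃ n ∈ TT L, S = cls (XF (Fl i (ln n))) := by
  intro N
  induction N using Nat.strong_induction_on with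
  | _ N ih =>
    intro n hn hok hS hN
    by_cases ha : anyL (less n.1 n.2.1 n.2.2.1 n.2.2.2) L = true
    · obtain ⟨E, hE, hEl⟩ := anyL_spec ha
      obtain ⟨n', hn', hok', hcls, hlt⟩ := less_step hi (allL_spec hL E hE) hn hok hEl
      exact ih (code4 n') (hN ▸ hlt) n' hn' hok' (hS.trans hcls) rfl
    · refine ⟨n, ?_, hS⟩
      rw [TT, Finset.mem_filter, hok, Bool.true_and, Bool.not_eq_true', ← Bool.not_eq_true]
      exact ⟨hn, ha⟩

theorem card_TT (L : List Ent) : (TT L).card = tot L := by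
  rw [TT, Finset.card_filter, box, Finset.sum_product]
  unfold tot
  rw [cnt_eq]
  refine Finset.sum_congr rfl fun c0 _ => ?_
  rw [Finset.sum_product]
  rcases h0 : ok1 c0 with _ | _
  · simp [okQ, okN, h0]
  · rw [cond_true, cnt_eq]
    refine Finset.sum_congr rfl fun c1 _ => ?_
    rw [Finset.sum_product]
    rcases h1 : ok2 c0 c1 with _ | _
    · simp [okQ, okN, h1]
    · rw [cond_true, cnt_eq]
      refine Finset.sum_congr rfl fun c2 _ => ?_
      rcases h2 : ok3 c0 c1 c2 with _ | _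
      · simp [okQ, okN, h2]
      · rw [cond_true, cnt_eq]
        refine Finset.sum_congr rfl fun c3 _ => ?_
        rcases h3 : ok4 c0 c1 c2 c3 with _ | _
        · simp [okQ, okN, h3]
        · rw [cond_true]
          rcases h4 : anyL (less c0 c1 c2 c3) L with _ | _
          · simp [okQ, okN, h0, h1, h2, h3]
          · simp

theorem finCl : Cl.Finite := Set.toFinite _

/-- The upper bound. -/
theorem upper : Cl.ncard ≤ 1878 := by
  classical
  have hsub : Cl ⊆ ((TT aut0).image (fun n => cls (XF (Fl 0 (ln n)))) ∪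
      ((TT aut1).image (fun n => cls (XF (Fl 1 (ln n)))) ∪
       (TT aut2).image (fun n => cls (XF (Fl 2 (ln n))))) : Finset (Set X)) := by
    intro S hS
    obtain ⟨i, hi, n, hn, hok, hS'⟩ := exists_Fl hS
    simp only [Finset.coe_union, Set.mem_union, Finset.mem_coe, Finset.mem_image]
    interval_cases i
    · obtain ⟨m, hm, h⟩ := exists_min (L := aut0) (by norm_num) aut0_spec _ n hn hok hS' rfl
      exact Or.inl ⟨m, hm, h.symm⟩
    · obtain ⟨m, hm, h⟩ := exists_min (L := aut1) (by norm_num) aut1_spec _ n hn hok hS' rfl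
      exact Or.inr (Or.inl ⟨m, hm, h.symm⟩)
    · obtain ⟨m, hm, h⟩ := exists_min (L := aut2) (by norm_num) aut2_spec _ n hn hok hS' rfl
      exact Or.inr (Or.inr ⟨m, hm, h.symm⟩)
  have h0 := Nat.eq_of_beq_eq_true tot0
  have h1 := Nat.eq_of_beq_eq_true tot1
  have h2 := Nat.eq_of_beq_eq_true tot2
  rw [← card_TT] at h0 h1 h2
  refine (Set.ncard_le_ncard hsub (Finset.finite_toSet _)).trans ?_
  rw [Set.ncard_coe_finset]
  refine (Finset.card_union_le _ _).trans ?_
  have a0 := Finset.card_image_le (s := TT aut0) (f := fun n => cls (XF (Fl 0 (ln n))))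
  have a1 := Finset.card_image_le (s := TT aut1) (f := fun n => cls (XF (Fl 1 (ln n))))
  have a2 := Finset.card_image_le (s := TT aut2) (f := fun n => cls (XF (Fl 2 (ln n))))
  have a3 := Finset.card_union_le ((TT aut1).image (fun n => cls (XF (Fl 1 (ln n)))))
       ((TT aut2).image (fun n => cls (XF (Fl 2 (ln n)))))
  omega

end Pool.Agent.Helper64.Rds
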