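import Pool.Agent.Helper64.Rds.NB4

/-!
# Central relative difference sets and their equivalence
-/

set_option autoImplicit false

namespace Pool.Agent.Helper64.Rds

/-- A pair (cocycle, subset). -/
abbrev X := (V → V → V) × Finset (V × V)

/-- The pair is a central relative difference set. -/
def Valid (x : X) : Prop :=
  x.1 0 0 = 0 ∧
    (∀ g h l : V, x.1 g h + x.1 (g + h) l = x.1 h l + x.1 g (h + l)) ∧
    x.2.card = 2 ^ 4 ∧
    (∀ e : V × V, e ≠ 0 →
      (e.1 = 0 → {s | s ∈ x.2 ∧ (e.1 + s.1, e.2 + s.2 + x.1 e.1 s.1) ∈ x.2}.ncard = 0) ∧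
      (e.1 ≠ 0 → {s | s ∈ x.2 ∧ (e.1 + s.1, e.2 + s.2 + x.1 e.1 s.1) ∈ x.2}.ncard = 1))

/-- Equivalence of pairs. -/
def Rel (x y : X) : Prop :=
  ∃ f : V × V ≃ V × V,
    (∀ a b : V × V,
      f (a.1 + b.1, a.2 + b.2 + x.1 a.1 b.1) =
        ((f a).1 + (f b).1, (f a).2 + (f b).2 + y.1 (f a).1 (f b).1)) ∧
    (∀ c : V, (f (0, c)).1 = 0) ∧
    ∃ g : V × V,
      ∀ z : V × V,
        (∃ r ∈ x.2, f r = z) ↔ (∃ r ∈ y.2, z = (r.1 + g.1, r.2 + g.2 + y.1 r.1 g.1))

/-- The class of a pair. -/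
def cls (x : X) : Set X := {y | Valid y ∧ Rel x y}

/-- The set of all classes. -/
def Cl : Set (Set X) := {S | ∃ x, Valid x ∧ S = cls x}

/-- Multiplication in the extension. -/
def mulp (ψ : V → V → V) (a b : V × V) : V × V := (a.1 + b.1, a.2 + b.2 + ψ a.1 b.1)

/-- Inverse in the extension. -/
def invp (ψ : V → V → V) (a : V × V) : V × V := (a.1, a.2 + ψ a.1 a.1)

section
variable {ψ : V → V → V} (h0 : ψ 0 0 = 0)
  (hc : ∀ g h l : V, ψ g h + ψ (g + h) l = ψ h l + ψ g (h + l))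
include h0 hc

theorem psi_zl (l : V) : ψ 0 l = 0 := by
  have := hc 0 0 l
  rw [h0, zero_add, zero_add, zero_add] at this
  simpa using this

theorem psi_zr (g : V) : ψ g 0 = 0 := by
  have := hc g 0 0
  rw [h0, add_zero, add_zero, zero_add] at this
  simpa using this

omit h0 in
theorem mulp_assoc (a b c : V × V) : mulp ψ (mulp ψ a b) c = mulp ψ a (mulp ψ b c) := by
  have := hc a.1 b.1 c.1
  unfold mulp
  ext1
  · exact add_assoc _ _ _
  · simp only
    grind

theorem mulp_inv (a : V × V) : mulp ψ a (invp ψ a) = 0 := by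
  unfold mulp invp
  ext1
  · exact add_self _
  · simp only [Prod.snd_zero]
    grind

theorem inv_mulp (a : V × V) : mulp ψ (invp ψ a) a = 0 := by
  unfold mulp invp
  ext1
  · exact add_self _
  · simp only [Prod.snd_zero]
    grind

theorem mulp_zero (a : V × V) : mulp ψ a 0 = a := by
  unfold mulp
  ext1
  · exact add_zero _
  · simp only [Prod.snd_zero, Prod.fst_zero]
    rw [psi_zr h0 hc, add_zero, add_zero]

end

theorem Rel.refl {x : X} (hx : Valid x) : Rel x x := by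
  refine ⟨Equiv.refl _, fun a b => rfl, fun c => rfl, 0, fun z => ?_⟩
  obtain ⟨h0, hc, -, -⟩ := hx
  constructor
  · rintro ⟨r, hr, rfl⟩
    exact ⟨r, hr, (mulp_zero h0 hc r).symm⟩
  · rintro ⟨r, hr, rfl⟩
    exact ⟨r, hr, (mulp_zero h0 hc r).symm⟩

theorem Rel.symm {x y : X} (hx : Valid x) (hy : Valid y) (h : Rel x y) : Rel y x := by
  obtain ⟨f, hf, hc, g, hg⟩ := h
  obtain ⟨x0, xc, -, -⟩ := hx
  obtain ⟨y0, yc, -, -⟩ := hy
  have hf' : ∀ a b, f (mulp x.1 a b) = mulp y.1 (f a) (f b) := hf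
  have hg' : ∀ z, (∃ r ∈ x.2, f r = z) ↔ (∃ r ∈ y.2, z = mulp y.1 r g) := hg
  refine ⟨f.symm, ?_, ?_, f.symm (invp y.1 g), ?_⟩
  · intro a b
    apply f.injective
    rw [Equiv.apply_symm_apply]
    have := hf' (f.symm a) (f.symm b)
    rw [Equiv.apply_symm_apply, Equiv.apply_symm_apply] at this
    exact this.symm
  · intro c
    have hinj : Function.Injective (fun c : V => (f (0, c)).2) := by
      intro c c' hcc
      simp only at hcc
      have : f (0, c) = f (0, c') := Prod.ext (by rw [hc, hc]) hcc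
      have := f.injective this
      exact (Prod.mk.inj this).2
    obtain ⟨c', hc'⟩ := (Finite.injective_iff_surjective.mp hinj) c
    simp only at hc'
    have : f (0, c') = (0, c) := Prod.ext (hc c') hc'
    rw [← this, Equiv.symm_apply_apply]
  · intro z
    change (∃ r ∈ y.2, f.symm r = z) ↔ (∃ r ∈ x.2, z = mulp x.1 r (f.symm (invp y.1 g)))
    constructor
    · rintro ⟨r, hr, rfl⟩
      obtain ⟨s, hs, hfs⟩ := (hg' (mulp y.1 r g)).mpr ⟨r, hr, rfl⟩
      refine ⟨s, hs, ?_⟩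
      apply f.injective
      rw [Equiv.apply_symm_apply, hf', hfs, Equiv.apply_symm_apply, mulp_assoc yc,
        mulp_inv y0 yc, mulp_zero y0 yc]
    · rintro ⟨r, hr, rfl⟩
      obtain ⟨s, hs, hfs⟩ := (hg' (f r)).mp ⟨r, hr, rfl⟩
      refine ⟨s, hs, ?_⟩
      apply f.injective
      rw [Equiv.apply_symm_apply, hf', hfs, Equiv.apply_symm_apply, mulp_assoc yc,
        mulp_inv y0 yc, mulp_zero y0 yc]

theorem Rel.trans {x y z : X} (hz : Valid z) (h1 : Rel x y)
    (h2 : Rel y z) : Rel x z := by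
  obtain ⟨f, hf, hc, g, hg⟩ := h1
  obtain ⟨f2, hf2, hc2, g2, hg2⟩ := h2
  obtain ⟨z0, zc, -, -⟩ := hz
  have hf' : ∀ a b, f (mulp x.1 a b) = mulp y.1 (f a) (f b) := hf
  have hg' : ∀ w, (∃ r ∈ x.2, f r = w) ↔ (∃ r ∈ y.2, w = mulp y.1 r g) := hg
  have hf2' : ∀ a b, f2 (mulp y.1 a b) = mulp z.1 (f2 a) (f2 b) := hf2
  have hg2' : ∀ w, (∃ r ∈ y.2, f2 r = w) ↔ (∃ r ∈ z.2, w = mulp z.1 r g2) := hg2
  refine ⟨f.trans f2, ?_, ?_, mulp z.1 g2 (f2 g), ?_⟩
  · intro a b
    change f2 (f (mulp x.1 a b)) = mulp z.1 (f2 (f a)) (f2 (f b))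
    rw [hf', hf2']
  · intro c
    change (f2 (f (0, c))).1 = 0
    have : f (0, c) = (0, (f (0, c)).2) := Prod.ext (hc c) rfl
    rw [this]
    exact hc2 _
  · intro w
    change (∃ r ∈ x.2, f2 (f r) = w) ↔ (∃ r ∈ z.2, w = mulp z.1 r (mulp z.1 g2 (f2 g)))
    constructor
    · rintro ⟨r, hr, rfl⟩
      obtain ⟨s, hs, hfs⟩ := (hg' (f r)).mp ⟨r, hr, rfl⟩
      obtain ⟨t, ht, hft⟩ := (hg2' (f2 s)).mp ⟨s, hs, rfl⟩
      exact ⟨t, ht, by rw [hfs, hf2', hft, mulp_assoc zc]⟩
    · rintro ⟨t, ht, rfl⟩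
      obtain ⟨s, hs, hfs⟩ := (hg2' (mulp z.1 t g2)).mpr ⟨t, ht, rfl⟩
      obtain ⟨r, hr, hfr⟩ := (hg' (mulp y.1 s g)).mpr ⟨s, hs, rfl⟩
      exact ⟨r, hr, by rw [hfr, hf2', hfs, mulp_assoc zc]⟩

theorem cls_eq {x y : X} (hx : Valid x) (hy : Valid y) (h : Rel x y) : cls x = cls y := by
  ext z
  constructor
  · rintro ⟨hz, hxz⟩
    exact ⟨hz, (Rel.symm hx hy h).trans hz hxz⟩
  · rintro ⟨hz, hyz⟩
    exact ⟨hz, h.trans hz hyz⟩

theorem rel_of_cls {x y : X} (hx : Valid x) (h : cls x = cls y) : Rel y x := by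
  have : x ∈ cls x := ⟨hx, Rel.refl hx⟩
  rw [h] at this
  exact this.2

/-- Non-singular bilinear maps. -/
structure Nsb (F : V → V → V) : Prop where
  l : ∀ g, Addi (F g)
  r : ∀ h, Addi (fun g => F g h)
  ns : ∀ g h, F g h = 0 → g = 0 ∨ h = 0

theorem Nsb.zl {F : V → V → V} (h : Nsb F) (x : V) : F 0 x = 0 := (h.r x).zero

theorem Nsb.zr {F : V → V → V} (h : Nsb F) (x : V) : F x 0 = 0 := (h.l x).zero

theorem Nsb.inj {F : V → V → V} (h : Nsb F) {x : V} (hx : x ≠ 0) : Function.Injective (F x) :=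
  inj_of_ker (h.l x) (fun y hy => (h.ns x y hy).resolve_left hx)

theorem Nsb.injr {F : V → V → V} (h : Nsb F) {x : V} (hx : x ≠ 0) :
    Function.Injective (fun y => F y x) :=
  inj_of_ker (h.r x) (fun y hy => (h.ns y x hy).resolve_right hx)

/-- The pair of a bilinear map. -/
def XF (F : V → V → V) : X := (F, Finset.univ.image (fun g : V => (g, (0 : V))))

theorem mem_XF (F : V → V → V) (z : V × V) : z ∈ (XF F).2 ↔ z.2 = 0 := by
  unfold XF
  simp only [Finset.mem_image, Finset.mem_univ, true_and]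
  constructor
  · rintro ⟨g, rfl⟩
    rfl
  · intro h
    exact ⟨z.1, Prod.ext rfl h.symm⟩

theorem valid_XF {F : V → V → V} (h : Nsb F) : Valid (XF F) := by
  refine ⟨h.zl 0, ?_, ?_, ?_⟩
  · intro a b c
    change F a b + F (a + b) c = F b c + F a (b + c)
    have h1 : F (a + b) c = F a c + F b c := h.r c a b
    rw [h1, h.l a b c]
    abel
  · unfold XF
    rw [Finset.card_image_of_injective _ (fun a b hab => (Prod.mk.inj hab).1)]
    simp
  · intro e he
    constructor
    · intro he1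
      rw [Set.ncard_eq_zero (Set.toFinite _), Set.eq_empty_iff_forall_notMem]
      rintro s ⟨hs, hs'⟩
      rw [mem_XF] at hs hs'
      apply he
      refine Prod.ext he1 ?_
      have h1 : (XF F).1 e.1 s.1 = 0 := by
        rw [he1]
        exact h.zl _
      simp only [hs, h1, add_zero] at hs'
      exact hs'
    · intro he1
      obtain ⟨s1, hs1⟩ := (Finite.injective_iff_surjective.mp (h.inj he1)) e.2
      rw [Set.ncard_eq_one]
      refine ⟨(s1, 0), ?_⟩
      ext s
      simp only [Set.mem_setOf_eq, Set.mem_singleton_iff, mem_XF]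
      constructor
      · rintro ⟨h2, h3⟩
        rw [h2, add_zero] at h3
        refine Prod.ext ?_ h2
        apply h.inj he1
        rw [hs1]
        exact (add_eq_zero.mp h3).symm
      · rintro rfl
        refine ⟨rfl, ?_⟩
        change e.2 + 0 + F e.1 s1 = 0
        rw [hs1, add_zero, add_self]

/-- Every relative difference set is equivalent to the one of a bilinear map. -/
theorem exists_bilinear {x : X} (hx : Valid x) : ∃ F, Nsb F ∧ Rel x (XF F) := by
  classical
  obtain ⟨h0, hc, hcard, hrds⟩ := hx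
  have zl := psi_zl h0 hc
  have zr := psi_zr h0 hc
  have hinj : Set.InjOn Prod.fst (x.2 : Set (V × V)) := by
    intro s hs s' hs' hss
    by_contra hne
    have h2 : s'.2 + s.2 ≠ 0 := by
      intro h
      exact hne (Prod.ext hss (add_eq_zero.mp h).symm)
    have h1 := (hrds (0, s'.2 + s.2) (fun h => h2 (Prod.mk.inj h).2)).1 rfl
    rw [Set.ncard_eq_zero (Set.toFinite _), Set.eq_empty_iff_forall_notMem] at h1
    apply h1 s
    refine ⟨hs, ?_⟩
    have : ((0 : V) + s.1, s'.2 + s.2 + s.2 + x.1 0 s.1) = s' := by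
      refine Prod.ext ?_ ?_
      · simp only [zero_add]
        exact hss
      · simp only
        rw [zl]
        grind
    change ((0 : V) + s.1, s'.2 + s.2 + s.2 + x.1 0 s.1) ∈ x.2
    rw [this]
    exact hs'
  have himg : x.2.image Prod.fst = Finset.univ := by
    rw [← Finset.card_eq_iff_eq_univ, Finset.card_image_of_injOn hinj, hcard]
    simp
  have hex : ∀ g : V, ∃ r : V, (g, r) ∈ x.2 := by
    intro g
    have : g ∈ x.2.image Prod.fst := by rw [himg]; exact Finset.mem_univ _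
    rw [Finset.mem_image] at this
    obtain ⟨s, hs, rfl⟩ := this
    exact ⟨s.2, hs⟩
  choose ρ hρ using hex
  have hρ' : ∀ s ∈ x.2, s = (s.1, ρ s.1) := fun s hs => hinj hs (hρ s.1) rfl
  have hmem : ∀ z : V × V, z ∈ x.2 ↔ z.2 = ρ z.1 := by
    intro z
    constructor
    · intro hz
      exact congrArg Prod.snd (hρ' z hz)
    · intro hz
      have : z = (z.1, ρ z.1) := Prod.ext rfl hz
      rw [this]
      exact hρ _
  set F : V → V → V := fun a b => x.1 a b + ρ a + ρ b + ρ (a + b) + ρ 0 with hF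
  have HC : Coc F := by
    refine ⟨?_, ?_, ?_, ?_⟩
    · intro h
      simp only [hF, zl, zero_add]
      grind
    · intro h
      simp only [hF, zr, zero_add, add_zero]
      grind
    · intro a b c
      have := hc a b c
      simp only [hF]
      rw [add_assoc a b c]
      grind
    · intro g hg b b' hbb
      have h1 := (hrds (g, F g b + ρ g + ρ 0) (fun h => hg (Prod.mk.inj h).1)).2 hg
      rw [Set.ncard_eq_one] at h1
      obtain ⟨s, hs⟩ := h1
      have key : ∀ c, F g c = F g b → (c, ρ c) = s := by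
        intro c hcb
        have : (c, ρ c) ∈ ({s} : Set (V × V)) := by
          rw [← hs]
          refine ⟨hρ c, ?_⟩
          rw [hmem]
          simp only
          rw [← hcb, hF]
          grind
        exact this
      have := (key b rfl).trans (key b' hbb.symm).symm
      exact (Prod.mk.inj this).1
  obtain ⟨hl, hr⟩ := HC.bilinear
  have hN : Nsb F := ⟨hl, hr, fun g h hgh => by
    by_contra hcon
    push Not at hcon
    exact hcon.2 (HC.bi g hcon.1 (hgh.trans (HC.zr g).symm))⟩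
  refine ⟨F, hN, ?_⟩
  have hinv : Function.Involutive (fun z : V × V => (z.1, z.2 + ρ z.1 + ρ 0)) := by
    intro z
    refine Prod.ext rfl ?_
    simp only
    grind
  refine ⟨hinv.toPerm, ?_, ?_, (0, ρ 0), ?_⟩
  · intro a b
    change (a.1 + b.1, a.2 + b.2 + x.1 a.1 b.1 + ρ (a.1 + b.1) + ρ 0) = (a.1 + b.1,
      (a.2 + ρ a.1 + ρ 0) + (b.2 + ρ b.1 + ρ 0) + F a.1 b.1)
    refine Prod.ext rfl ?_
    simp only [hF]
    grind
  · intro c
    rfl
  · intro z
    change (∃ r ∈ x.2, (r.1, r.2 + ρ r.1 + ρ 0) = z) ↔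
      (∃ r ∈ (XF F).2, z = (r.1 + 0, r.2 + ρ 0 + F r.1 0))
    constructor
    · rintro ⟨r, hr, rfl⟩
      refine ⟨(r.1, 0), (mem_XF F _).mpr rfl, ?_⟩
      rw [hmem] at hr
      refine Prod.ext (add_zero _).symm ?_
      simp only
      rw [hr, hN.zr, add_self, zero_add, add_zero]
    · rintro ⟨r, hr, rfl⟩
      rw [mem_XF] at hr
      refine ⟨(r.1, ρ r.1), hρ _, ?_⟩
      refine Prod.ext (add_zero _).symm ?_
      simp only
      rw [hr, hN.zr, add_self, zero_add, add_zero]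

/-- Equivalence of bilinear maps. -/
def BRel (F F' : V → V → V) : Prop :=
  ∃ θ γ : V → V, Addi θ ∧ Addi γ ∧ Function.Injective θ ∧ Function.Injective γ ∧
    ∀ g h, F' (θ g) (θ h) = γ (F g h)

theorem rel_of_brel {F F' : V → V → V} (h' : Nsb F') (hb : BRel F F') :
    Rel (XF F) (XF F') := by
  obtain ⟨θ, γ, hθ, hγ, hθi, hγi, hb⟩ := hb
  refine ⟨Equiv.prodCongr (Equiv.ofBijective θ (Finite.injective_iff_bijective.mp hθi))
    (Equiv.ofBijective γ (Finite.injective_iff_bijective.mp hγi)), ?_, ?_, 0, ?_⟩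
  · intro a b
    change (θ (a.1 + b.1), γ (a.2 + b.2 + F a.1 b.1)) =
      (θ a.1 + θ b.1, γ a.2 + γ b.2 + F' (θ a.1) (θ b.1))
    rw [hθ, hγ, hγ, hb]
  · intro c
    exact hθ.zero
  · intro z
    change (∃ r ∈ (XF F).2, (θ r.1, γ r.2) = z) ↔
      (∃ r ∈ (XF F').2, z = (r.1 + 0, r.2 + 0 + F' r.1 0))
    constructor
    · rintro ⟨r, hr, rfl⟩
      rw [mem_XF] at hr
      refine ⟨(θ r.1, 0), (mem_XF F' _).mpr rfl, ?_⟩
      refine Prod.ext (add_zero _).symm ?_
      simp only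
      rw [hr, hγ.zero, h'.zr, add_zero, add_zero]
    · rintro ⟨r, hr, rfl⟩
      rw [mem_XF] at hr
      obtain ⟨s, hs⟩ := (Finite.injective_iff_surjective.mp hθi) r.1
      refine ⟨(s, 0), (mem_XF F _).mpr rfl, ?_⟩
      refine Prod.ext ?_ ?_
      · simp only
        rw [hs, add_zero]
      · simp only
        rw [hr, hγ.zero, h'.zr, add_zero, add_zero]

theorem brel_of_rel {F F' : V → V → V} (h : Nsb F) (h' : Nsb F') (hr : Rel (XF F) (XF F')) :
    BRel F F' := by
  obtain ⟨f, hf, hc, g, hg⟩ := hr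
  have hf' : ∀ a b, f (mulp F a b) = mulp F' (f a) (f b) := hf
  have f0 : f 0 = 0 := by
    have h1 := hf' 0 0
    have h2 : mulp F 0 0 = 0 := by
      unfold mulp
      refine Prod.ext (add_zero _) ?_
      simp [h.zl]
    rw [h2] at h1
    have h3 : (f 0).1 = 0 := by
      have := hc 0
      exact this
    have h4 := congrArg Prod.snd h1
    unfold mulp at h4
    simp only [h3, h'.zl, add_zero] at h4
    refine Prod.ext h3 ?_
    simpa using h4
  have hcent : ∀ c, f (0, c) = (0, (f (0, c)).2) := fun c => Prod.ext (hc c) rfl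
  set γ : V → V := fun c => (f (0, c)).2 with hγ
  set θ : V → V := fun a => (f (a, 0)).1 with hθ
  set μ : V → V := fun a => (f (a, 0)).2 with hμ
  have fγ : ∀ c, f (0, c) = (0, γ c) := hcent
  have fθ : ∀ a, f (a, 0) = (θ a, μ a) := fun a => rfl
  have hγa : Addi γ := by
    intro c d
    have h1 := hf' (0, c) (0, d)
    have h2 : mulp F (0, c) (0, d) = (0, c + d) := by
      unfold mulp
      refine Prod.ext (add_zero _) ?_
      simp [h.zl]
    rw [h2, fγ, fγ, fγ] at h1
    have h4 := congrArg Prod.snd h1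
    unfold mulp at h4
    simp only [h'.zl, add_zero] at h4
    exact h4
  have hγi : Function.Injective γ := by
    intro c d hcd
    have h1 : f (0, c) = f (0, d) := by rw [fγ, fγ, hcd]
    exact (Prod.mk.inj (f.injective h1)).2
  have hfac : ∀ a c, f (a, c) = (θ a, μ a + γ c) := by
    intro a c
    have h1 := hf' (a, 0) (0, c)
    have h2 : mulp F (a, 0) (0, c) = (a, c) := by
      unfold mulp
      refine Prod.ext (add_zero _) ?_
      simp [h.zr]
    rw [h2, fγ, fθ] at h1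
    rw [h1]
    unfold mulp
    refine Prod.ext (add_zero _) ?_
    simp [h'.zr]
  have hadd : ∀ a b, θ (a + b) = θ a + θ b ∧
      μ (a + b) + γ (F a b) = μ a + μ b + F' (θ a) (θ b) := by
    intro a b
    have h1 := hf' (a, 0) (b, 0)
    have h2 : mulp F (a, 0) (b, 0) = (a + b, F a b) := by
      unfold mulp
      refine Prod.ext rfl ?_
      simp
    rw [h2, fθ, fθ, hfac] at h1
    exact Prod.mk.inj h1
  have hθa : Addi θ := fun a b => (hadd a b).1
  have hθi : Function.Injective θ := by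
    apply inj_of_ker hθa
    intro a ha
    obtain ⟨c, hcc⟩ := (Finite.injective_iff_surjective.mp hγi) (μ a)
    have h1 : f (a, c) = f 0 := by
      rw [hfac, ha, hcc, add_self, f0]
      rfl
    exact (Prod.mk.inj (f.injective h1)).1
  have hμθ : ∀ a, μ a = g.2 + F' (θ a + g.1) g.1 := by
    intro a
    obtain ⟨r, hr, hrz⟩ := (hg (f (a, 0))).mp ⟨(a, 0), (mem_XF F _).mpr rfl, rfl⟩
    rw [mem_XF] at hr
    rw [fθ, hr, zero_add] at hrz
    obtain ⟨h1, h2⟩ := Prod.mk.inj hrz
    rw [h2, h1, add_assoc, add_self, add_zero]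
    rfl
  have hμ0 : μ 0 = 0 := congrArg Prod.snd f0
  have hμa : ∀ a, μ a = F' (θ a) g.1 := by
    intro a
    have h1 := hμθ 0
    rw [hμ0, hθa.zero, zero_add] at h1
    have h2 := hμθ a
    have h3 : F' (θ a + g.1) g.1 = F' (θ a) g.1 + F' g.1 g.1 := h'.r g.1 (θ a) g.1
    rw [h2, h3]
    grind
  refine ⟨θ, γ, hθa, hγa, hθi, hγi, ?_⟩
  intro a b
  have h1 := (hadd a b).2
  have h2 : μ (a + b) = μ a + μ b := by
    rw [hμa, hμa, hμa, hθa]
    exact h'.r g.1 _ _
  rw [h2] at h1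
  exact (add_left_cancel h1).symm

end Pool.Agent.Helper64.Rds
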