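import Pool.Agent.Helper64.Rds.Count

/-!
# The lower bound
-/

set_option autoImplicit false

namespace Pool.Agent.Helper64.Rds

theorem cd_fb0 (a b : V) : cd (fb 0 a b) = m0 (cd a) (cd b) := cd_fc _ _ _ _

theorem fb_l0 (i : ℕ) (b : V) : fb i (e 0) b = b := by
  simp [fb, fc, fV, lin, e]

theorem fb_l1 (i : ℕ) (b : V) : fb i (e 1) b = CC b := by
  simp [fb, fc, fV, lin, e]

theorem fb_r0 (i : ℕ) (a : V) : fb i a (e 0) = a := by
  have C0 : CC (e 0) = e 1 := by decide +kernel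
  have h2 : ∀ c1 c2 c3 c4 : V, lin c1 c2 c3 c4 (e 0) = c1 := by
    intro c1 c2 c3 c4
    simp [lin, e]
  rw [fb, fc, fV, C0, h2, h2, lin_e]

theorem rdiv_eq {a b : V} (hb : b ≠ 0) : rdiv (cd b) (m0 (cd a) (cd b)) = cd a := by
  have h1 : cd b ≠ 0 := fun h => hb (cd_eq_zero.mp h)
  have h2 := cd_lt b
  have := allb_spec (allb_spec rdiv_spec (cd b - 1) (by omega)) _ (cd_lt a)
  rw [Nat.beq_eq, show cd b - 1 + 1 = cd b by omega] at this
  exact this

theorem ldiv_eq {a b : V} (ha : a ≠ 0) : ldiv (cd a) (m0 (cd a) (cd b)) = cd b := by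
  have h1 : cd a ≠ 0 := fun h => ha (cd_eq_zero.mp h)
  have h2 := cd_lt a
  have := allb_spec (allb_spec ldiv_spec (cd a - 1) (by omega)) _ (cd_lt b)
  rw [Nat.beq_eq, show cd a - 1 + 1 = cd a by omega] at this
  exact this

/-- Autotopisms of the first semifield. -/
structure Aut (A B Γ : V → V) : Prop where
  Aa : Addi A
  Ba : Addi B
  Γa : Addi Γ
  Ai : Function.Injective A
  Bi : Function.Injective B
  id : ∀ a b, fb 0 (A a) (B b) = Γ (fb 0 a b)

section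
variable {A B Γ : V → V} (h : Aut A B Γ)
include h

theorem aut_cols : cd (A (e 1)) = k1 (cd (A (e 0))) (cd (B (e 0))) (cd (B (e 1))) ∧
    cd (A (e 2)) = k4 (cd (A (e 0))) (cd (B (e 0))) (cd (B (e 1))) ∧
    cd (A (e 3)) = k7 (cd (A (e 0))) (cd (B (e 0))) (cd (B (e 1))) ∧
    cd (B (e 2)) = k3 (cd (A (e 0))) (cd (B (e 0))) (cd (B (e 1))) ∧
    cd (B (e 3)) = k6 (cd (A (e 0))) (cd (B (e 0))) (cd (B (e 1))) ∧
    chk0 (cd (A (e 0))) (cd (B (e 0))) (cd (B (e 1))) = true := by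
  have e0 : (e 0 : V) ≠ 0 := by decide +kernel
  have e1 : (e 1 : V) ≠ 0 := by decide +kernel
  have e01 : (e 1 : V) ≠ e 0 := by decide +kernel
  have hA0 : A (e 0) ≠ 0 := fun h0 => e0 (h.Ai (by rw [h0, h.Aa.zero]))
  have hB0 : B (e 0) ≠ 0 := fun h0 => e0 (h.Bi (by rw [h0, h.Ba.zero]))
  have hB1 : B (e 1) ≠ 0 := fun h0 => e1 (h.Bi (by rw [h0, h.Ba.zero]))
  have hB01 : B (e 1) ≠ B (e 0) := fun h0 => e01 (h.Bi h0)
  obtain ⟨d0, d1, d2, d3, -⟩ := cd_e
  have C1 : CC (e 1) = e 2 := by decide +kernel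
  have C2 : CC (e 2) = e 3 := by decide +kernel
  have key : ∀ a b, m0 (cd (A a)) (cd (B b)) = cd (Γ (fb 0 a b)) := by
    intro a b
    rw [← cd_fb0, h.id]
  have g0 : m0 (cd (A (e 0))) (cd (B (e 0))) = cd (Γ (e 0)) := by rw [key, fb_l0]
  have g1 : m0 (cd (A (e 0))) (cd (B (e 1))) = cd (Γ (e 1)) := by rw [key, fb_l0]
  have g1' : m0 (cd (A (e 1))) (cd (B (e 0))) = cd (Γ (e 1)) := by rw [key, fb_r0]
  have a1 : cd (A (e 1)) = k1 (cd (A (e 0))) (cd (B (e 0))) (cd (B (e 1))) := by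
    rw [k1, g1, ← g1', rdiv_eq hB0]
  have g2 : k2 (cd (A (e 0))) (cd (B (e 0))) (cd (B (e 1))) = cd (Γ (e 2)) := by
    rw [k2, ← a1, key, fb_l1, C1]
  have g2' : m0 (cd (A (e 0))) (cd (B (e 2))) = cd (Γ (e 2)) := by rw [key, fb_l0]
  have g2'' : m0 (cd (A (e 2))) (cd (B (e 0))) = cd (Γ (e 2)) := by rw [key, fb_r0]
  have b2 : cd (B (e 2)) = k3 (cd (A (e 0))) (cd (B (e 0))) (cd (B (e 1))) := by
    rw [k3, g2, ← g2', ldiv_eq hA0]
  have a2 : cd (A (e 2)) = k4 (cd (A (e 0))) (cd (B (e 0))) (cd (B (e 1))) := by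
    rw [k4, g2, ← g2'', rdiv_eq hB0]
  have g3 : k5 (cd (A (e 0))) (cd (B (e 0))) (cd (B (e 1))) = cd (Γ (e 3)) := by
    rw [k5, ← a1, ← b2, key, fb_l1, C2]
  have g3' : m0 (cd (A (e 0))) (cd (B (e 3))) = cd (Γ (e 3)) := by rw [key, fb_l0]
  have g3'' : m0 (cd (A (e 3))) (cd (B (e 0))) = cd (Γ (e 3)) := by rw [key, fb_r0]
  have b3 : cd (B (e 3)) = k6 (cd (A (e 0))) (cd (B (e 0))) (cd (B (e 1))) := by
    rw [k6, g3, ← g3', ldiv_eq hA0]
  have a3 : cd (A (e 3)) = k7 (cd (A (e 0))) (cd (B (e 0))) (cd (B (e 1))) := by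
    rw [k7, g3, ← g3'', rdiv_eq hB0]
  refine ⟨a1, a2, a3, b2, b3, ?_⟩
  have fin : ∀ x y, m0 (cd (A x)) (cd (B y)) = lin4 (cd (Γ (e 0))) (cd (Γ (e 1))) (cd (Γ (e 2)))
      (cd (Γ (e 3))) (m0 (cd x) (cd y)) := by
    intro x y
    rw [key, cd_map h.Γa, cd_fb0]
  simp only [chk0, ok1, ok2, chkM, Bool.and_eq_true, not_beq, Nat.beq_eq]
  rw [← a1, ← a2, ← a3, ← b2, ← b3, g0, g1, g2, g3]
  have f11 := fin (e 1) (e 1)
  have f21 := fin (e 2) (e 1)
  have f31 := fin (e 3) (e 1)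
  have f22 := fin (e 2) (e 2)
  have f13 := fin (e 1) (e 3)
  have f23 := fin (e 2) (e 3)
  have f32 := fin (e 3) (e 2)
  have f33 := fin (e 3) (e 3)
  rw [d1] at f11
  rw [d2, d1] at f21
  rw [d3, d1] at f31
  rw [d2] at f22
  rw [d1, d3] at f13
  rw [d2, d3] at f23
  rw [d3, d2] at f32
  rw [d3] at f33
  exact ⟨fun h0 => hA0 (cd_eq_zero.mp h0),
    ⟨fun h0 => hB1 (cd_eq_zero.mp h0), fun h0 => hB01 (cd_inj h0)⟩,
    fun h0 => hB0 (cd_eq_zero.mp h0), f11, f21, f31, f22, f13, f23, f32, f33⟩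

end

/-- The admissible triples. -/
def KK : Finset (ℕ × ℕ × ℕ) :=
  (Finset.range 16 ×ˢ Finset.range 16 ×ˢ Finset.range 16).filter
    (fun t => chk0 t.1 t.2.1 t.2.2 = true)

theorem card_KK : KK.card = 18 := by
  have h := Nat.eq_of_beq_eq_true aut_count
  rw [← h, KK, Finset.card_filter, Finset.sum_product]
  rw [cnt_eq]
  refine Finset.sum_congr rfl fun c0 _ => ?_
  rw [Finset.sum_product, cnt_eq]
  refine Finset.sum_congr rfl fun c1 _ => ?_
  rw [cnt_eq]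
  refine Finset.sum_congr rfl fun c2 _ => ?_
  rcases h3 : chk0 c0 c1 c2 with _ | _
  · simp
  · simp

/-- The key of an autotopism. -/
def keyOf (A B : V → V) : ℕ × ℕ × ℕ := (cd (A (e 0)), cd (B (e 0)), cd (B (e 1)))

theorem key_mem {A B Γ : V → V} (h : Aut A B Γ) : keyOf A B ∈ KK := by
  rw [KK, Finset.mem_filter]
  refine ⟨?_, (aut_cols h).2.2.2.2.2⟩
  simp only [keyOf, Finset.mem_product, Finset.mem_range]
  exact ⟨cd_lt _, cd_lt _, cd_lt _⟩

theorem key_inj {A B Γ A' B' Γ' : V → V} (h : Aut A B Γ) (h' : Aut A' B' Γ')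
    (hk : keyOf A B = keyOf A' B') : A = A' ∧ B = B' := by
  obtain ⟨a1, a2, a3, b2, b3, -⟩ := aut_cols h
  obtain ⟨a1', a2', a3', b2', b3', -⟩ := aut_cols h'
  obtain ⟨q0, hk'⟩ := Prod.mk.inj hk
  obtain ⟨q1, q2⟩ := Prod.mk.inj hk'
  rw [q0, q1, q2] at a1 a2 a3 b2 b3
  constructor
  · apply add_ext h.Aa h'.Aa
    intro i
    fin_cases i
    · exact cd_inj q0
    · exact cd_inj (a1.trans a1'.symm)
    · exact cd_inj (a2.trans a2'.symm)
    · exact cd_inj (a3.trans a3'.symm)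
  · apply add_ext h.Ba h'.Ba
    intro i
    fin_cases i
    · exact cd_inj q1
    · exact cd_inj q2
    · exact cd_inj (b2.trans b2'.symm)
    · exact cd_inj (b3.trans b3'.symm)

theorem fiber_key {n n0 : Q4} (hn : n ∈ box) (hok : okQ n = true) (hn0 : n0 ∈ box)
    (hok0 : okQ n0 = true) (hc : cls (XF (Fl 0 (ln n))) = cls (XF (Fl 0 (ln n0)))) :
    ∃ A B Γ : V → V, Aut A B Γ ∧ ∀ x, ln n (B x) = A (ln n0 x) := by
  have la := ln_add n
  have li := ln_inj hn hok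
  have la0 := ln_add n0
  have li0 := ln_inj hn0 hok0
  have hN := Fl_nsb (i := 0) (by norm_num) la li
  have hN0 := Fl_nsb (i := 0) (by norm_num) la0 li0
  have hr := rel_of_cls (valid_XF hN) hc
  obtain ⟨θ, γ, θa, γa, θi, γi, hid⟩ := brel_of_rel hN0 hN hr
  obtain ⟨l', l'a, l'i, hl1, hl2⟩ := exists_inv la0 li0
  refine ⟨fun x => ln n (θ (l' x)), θ, γ, ⟨?_, θa, γa, li.comp (θi.comp l'i), θi, ?_⟩, ?_⟩
  · intro x y
    simp only
    rw [l'a, θa, la]
  · intro a b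
    have h1 := hid (l' a) b
    change fb 0 (ln n (θ (l' a))) (θ b) = γ (fb 0 (ln n0 (l' a)) b) at h1
    rw [hl1] at h1
    exact h1
  · intro x
    simp only
    rw [hl2]

/-- The lower bound. -/
theorem lower : 1120 ≤ Cl.ncard := by
  classical
  set T := box.filter (fun n => okQ n = true) with hT
  have hTcard : T.card = 20160 := by
    have h := Nat.eq_of_beq_eq_true tot_nil
    rw [← card_TT] at h
    have hTT : T = TT [] := by
      rw [hT, TT]
      apply Finset.filter_congr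
      intro n _
      simp [anyL]
    rw [hTT]
    exact h
  have himg : (T.image (fun n => cls (XF (Fl 0 (ln n))))).card ≤ Cl.ncard := by
    rw [← Set.ncard_coe_finset]
    apply Set.ncard_le_ncard _ finCl
    intro S hS
    rw [Finset.mem_coe, Finset.mem_image] at hS
    obtain ⟨n, hn, rfl⟩ := hS
    rw [hT, Finset.mem_filter] at hn
    exact ⟨_, valid_XF (Fl_nsb (by norm_num) (ln_add n) (ln_inj hn.1 hn.2)), rfl⟩
  have hfib := Finset.card_le_mul_card_image (s := T) (f := fun n => cls (XF (Fl 0 (ln n)))) 18 (by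
    intro S hS
    rw [Finset.mem_image] at hS
    obtain ⟨n0, hn0, rfl⟩ := hS
    rw [hT, Finset.mem_filter] at hn0
    have hex : ∀ n ∈ T.filter (fun n => cls (XF (Fl 0 (ln n))) = cls (XF (Fl 0 (ln n0)))),
        ∃ AB : (V → V) × (V → V), (∃ Γ, Aut AB.1 AB.2 Γ) ∧
          ∀ x, ln n (AB.2 x) = AB.1 (ln n0 x) := by
      intro n hn
      rw [Finset.mem_filter, hT, Finset.mem_filter] at hn
      obtain ⟨A, B, Γ, h1, h2⟩ := fiber_key hn.1.1 hn.1.2 hn0.1 hn0.2 hn.2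
      exact ⟨(A, B), ⟨Γ, h1⟩, h2⟩
    choose! φ hφ using hex
    rw [← card_KK]
    apply Finset.card_le_card_of_injOn (fun n => keyOf (φ n).1 (φ n).2)
    · intro n hn
      obtain ⟨⟨Γ, h1⟩, -⟩ := hφ n hn
      exact key_mem h1
    · intro n hn n' hn' hk
      obtain ⟨⟨Γ, h1⟩, h2⟩ := hφ n hn
      obtain ⟨⟨Γ', h1'⟩, h2'⟩ := hφ n' hn'
      obtain ⟨hA, hB⟩ := key_inj h1 h1' hk
      have hl : ln n = ln n' := by
        funext y
        obtain ⟨x, rfl⟩ := (Finite.injective_iff_surjective.mp h1.Bi) y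
        rw [h2, hA, ← h2', hB]
      rw [Finset.mem_coe, Finset.mem_filter, hT, Finset.mem_filter] at hn hn'
      rw [← cds_ln hn.1.1, ← cds_ln hn'.1.1, hl])
  omega

/-- The number of classes is not a power of two. -/
theorem not_pow (k : ℕ) : Cl.ncard ≠ 2 ^ k := by
  have h1 := lower
  have h2 := upper
  intro h
  rw [h] at h1 h2
  have h3 : 2 ^ 10 < 2 ^ k := by omega
  have h4 : 2 ^ k < 2 ^ 11 := by omega
  have h5 := (Nat.pow_lt_pow_iff_right (by norm_num : 1 < 2)).mp h3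
  have h6 := (Nat.pow_lt_pow_iff_right (by norm_num : 1 < 2)).mp h4
  omega

end Pool.Agent.Helper64.Rds
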