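import Pool.Agent.Helper64.Rds.Basic

/-!
# Orthogonal cocycles on `F_2^4`: the third difference is additive
-/

set_option autoImplicit false

namespace Pool.Agent.Helper64.Rds

/-- Normalised cocycles with bijective rows. -/
structure Coc (Ψ : V → V → V) : Prop where
  zl : ∀ h, Ψ 0 h = 0
  zr : ∀ g, Ψ g 0 = 0
  co : ∀ g h k, Ψ g h + Ψ (g + h) k = Ψ h k + Ψ g (h + k)
  bi : ∀ g, g ≠ 0 → Function.Injective (Ψ g)

/-- The trilinear defect. -/
def tt (Ψ : V → V → V) (g h k : V) : V := Ψ g (h + k) + Ψ g h + Ψ g k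

/-- The quadrilinear defect. -/
def ss (Ψ : V → V → V) (g h k l : V) : V := tt Ψ g h (k + l) + tt Ψ g h k + tt Ψ g h l

/-- The sign character. -/
def chi (a : ZMod 2) : ℤ := if a = 0 then 1 else -1

theorem sum_chi : ∀ φ : V, φ ≠ 0 → ∑ y : V, chi (φ ⬝ᵥ y) = 0 := by decide +kernel

theorem sum_two {A : Type*} [AddCommMonoid A] (f : ZMod 2 → A) : ∑ a : ZMod 2, f a = f 0 + f 1 :=
  Fin.sum_univ_two f

/-- The coordinates of a vector. -/
def quad : ZMod 2 × ZMod 2 × ZMod 2 × ZMod 2 ≃ V where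
  toFun p := ![p.1, p.2.1, p.2.2.1, p.2.2.2]
  invFun x := (x 0, x 1, x 2, x 3)
  left_inv p := rfl
  right_inv x := by funext i; fin_cases i <;> rfl

theorem sumV {A : Type*} [AddCommMonoid A] (f : V → A) :
    ∑ x : V, f x = ∑ a : ZMod 2, ∑ b : ZMod 2, ∑ c : ZMod 2, ∑ d : ZMod 2, f ![a, b, c, d] := by
  rw [← Equiv.sum_comp quad, Fintype.sum_prod_type]
  refine Finset.sum_congr rfl fun a _ => ?_
  rw [Fintype.sum_prod_type]
  refine Finset.sum_congr rfl fun b _ => ?_
  rw [Fintype.sum_prod_type]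
  rfl

theorem seven : ∀ a b c d e f g : ZMod 2,
    chi 0 + chi a + (chi b + chi c) +
        (chi d + chi e + (chi f + chi g)) +
      (chi 0 + chi a + (chi b + chi c) +
        (chi d + chi e + (chi f + chi g))) =
    0 → g + f + e + c + d + b + a = 1 → False := by decide +kernel

theorem seven' (a b c d e f g : ZMod 2) (h : a + b + c + d + e + f + g = 0) :
    a = 0 ∨ b = 0 ∨ c = 0 ∨ d = 0 ∨ e = 0 ∨ f = 0 ∨ g = 0 := by
  by_contra hcon
  push Not at hcon
  obtain ⟨ha, hb, hc, hd, he, hf, hg⟩ := hcon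
  rw [ne_zero_iff] at ha hb hc hd he hf hg
  rw [ha, hb, hc, hd, he, hf, hg] at h
  revert h
  decide

theorem dual_zero (x : V) (h : ∀ φ : V, φ ⬝ᵥ x = 0) : x = 0 := by
  funext i
  have := h (e i)
  rwa [e, single_dotProduct, one_mul] at this

section
variable {Ψ : V → V → V} (H : Coc Ψ)
include H

theorem tt_eq (g h k : V) : tt Ψ g h k = Ψ (g + h) k + Ψ g k + Ψ h k := by
  have := H.co g h k
  unfold tt
  grind

theorem tt12 (g h k : V) : tt Ψ g h k = tt Ψ h g k := by
  rw [tt_eq H, tt_eq H, add_comm g h]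
  abel

omit H in
theorem tt23 (g h k : V) : tt Ψ g h k = tt Ψ g k h := by
  unfold tt
  rw [add_comm h k]
  abel

theorem tt13 (g h k : V) : tt Ψ g h k = tt Ψ k h g := by
  rw [tt12 H, tt23, tt12 H]

theorem tt_self (g k : V) : tt Ψ g g k = 0 := by
  rw [tt_eq H, add_self, H.zl]
  rw [zero_add, add_self]

theorem tt_z (g h : V) : tt Ψ g h 0 = 0 := by
  unfold tt
  rw [add_zero, H.zr, add_zero, add_self]

theorem row_self (g h : V) : Ψ g (g + h) = Ψ g g + Ψ g h := by
  have := tt_self H g h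
  unfold tt at this
  grind

theorem tt_addg (g h k : V) : tt Ψ g h (k + g) = tt Ψ g h k := by
  have h1 := row_self H g (h + k)
  have h2 := row_self H g k
  unfold tt
  rw [show h + (k + g) = g + (h + k) by abel, show k + g = g + k by abel, h1, h2]
  grind

theorem tt_addh (g h k : V) : tt Ψ g h (k + h) = tt Ψ g h k := by
  rw [tt12 H, tt_addg H, tt12 H]

omit H in
theorem ss_eq (g h k l : V) : ss Ψ g h k l = Ψ g (h + (k + l)) + Ψ g (h + k) + Ψ g (h + l) +
    Ψ g (k + l) + Ψ g h + Ψ g k + Ψ g l := by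
  unfold ss tt
  grind

theorem ss12 (g h k l : V) : ss Ψ g h k l = ss Ψ h g k l := by
  unfold ss
  rw [tt12 H g h, tt12 H g h, tt12 H g h]

omit H in
theorem ss34 (g h k l : V) : ss Ψ g h k l = ss Ψ g h l k := by
  unfold ss
  rw [add_comm k l]
  abel

omit H in
theorem ss23 (g h k l : V) : ss Ψ g h k l = ss Ψ g k h l := by
  rw [ss_eq, ss_eq, show k + (h + l) = h + (k + l) by abel, show k + h = h + k by abel]
  abel

theorem ss_a14 (g h k l : V) : ss Ψ g h k (l + g) = ss Ψ g h k l := by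
  unfold ss
  rw [← add_assoc, tt_addg H, tt_addg H]

theorem ss14 (g h k l : V) : ss Ψ g h k l = ss Ψ l h k g := by
  rw [ss12 H, ss23, ss34, ss23, ss12 H]

omit H in
theorem ss24 (g h k l : V) : ss Ψ g h k l = ss Ψ g l k h := by
  rw [ss23, ss34, ss23]

theorem ss_a41 (g h k l : V) : ss Ψ (g + l) h k l = ss Ψ g h k l := by
  rw [ss14 H, ss_a14 H, ss14 H]

theorem ss_a21 (g h k l : V) : ss Ψ (g + h) h k l = ss Ψ g h k l := by
  rw [ss24, ss_a41 H, ss24]

theorem ss_a31 (g h k l : V) : ss Ψ (g + k) h k l = ss Ψ g h k l := by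
  rw [ss34, ss_a41 H, ss34]

theorem ss_zero (h k l : V) : ss Ψ 0 h k l = 0 := by
  rw [ss_eq]
  simp [H.zl]

theorem ss_comb (g h k l : V) (a b c : ZMod 2) :
    ss Ψ (g + (a • h + (b • k + c • l))) h k l = ss Ψ g h k l := by
  have hc : ∀ g, ss Ψ (g + c • l) h k l = ss Ψ g h k l := by
    intro g
    rcases bool_cases c with rfl | rfl
    · simp
    · rw [one_smul, ss_a41 H]
  have hb : ∀ g, ss Ψ (g + b • k) h k l = ss Ψ g h k l := by
    intro g
    rcases bool_cases b with rfl | rfl
    · simp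
    · rw [one_smul, ss_a31 H]
  have ha : ∀ g, ss Ψ (g + a • h) h k l = ss Ψ g h k l := by
    intro g
    rcases bool_cases a with rfl | rfl
    · simp
    · rw [one_smul, ss_a21 H]
  rw [← add_assoc, ← add_assoc, hc, hb, ha]

theorem ss_inj {g h k l : V} (hs : ss Ψ g h k l ≠ 0) : Function.Injective (lin g h k l) := by
  have key : ∀ c : V, lin g h k l c = 0 → c = 0 := by
    intro c hc
    by_contra hne
    apply hs
    unfold lin at hc
    rcases bool_cases (c 0) with h0 | h0
    · rcases bool_cases (c 1) with h1 | h1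
      · rcases bool_cases (c 2) with h2 | h2
        · rcases bool_cases (c 3) with h3 | h3
          · exact absurd (by funext i; fin_cases i <;> assumption) hne
          · rw [h0, h1, h2, h3] at hc
            simp only [zero_smul, one_smul, zero_add] at hc
            rw [hc, ss14 H, ss_zero H]
        · rw [h0, h1, h2] at hc
          simp only [zero_smul, one_smul, zero_add] at hc
          have := ss_comb H k h g l 0 0 (c 3)
          rw [zero_smul, zero_smul, zero_add, zero_add, hc, ss_zero H] at this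
          rw [ss12 H, ss23, ss12 H, ← this]
      · rw [h0, h1] at hc
        simp only [zero_smul, one_smul, zero_add] at hc
        have := ss_comb H h g k l 0 (c 2) (c 3)
        rw [zero_smul, zero_add, hc, ss_zero H] at this
        rw [ss12 H, this]
    · rw [h0, one_smul] at hc
      rw [← ss_comb H g h k l (c 1) (c 2) (c 3), hc, ss_zero H]
  intro x y hxy
  have : lin g h k l (x + y) = 0 := by rw [lin_add, hxy, add_self]
  exact add_eq_zero.mp (key _ this)

theorem balanced {g : V} (hg : g ≠ 0) {φ : V} (hφ : φ ≠ 0) : ∑ x : V, chi (φ ⬝ᵥ Ψ g x) = 0 := by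
  rw [← sum_chi φ hφ]
  exact Function.Bijective.sum_comp (g := fun y => chi (φ ⬝ᵥ y))
    (Finite.injective_iff_bijective.mp (H.bi g hg))

theorem ss_bal {g h k l φ : V} (hφ : φ ≠ 0) (hq : φ ⬝ᵥ Ψ g g = 0) : φ ⬝ᵥ ss Ψ g h k l = 0 := by
  by_contra hs
  have hinj : Function.Injective (lin g h k l) :=
    ss_inj H (fun h0 => hs (by rw [h0, dotProduct_zero]))
  have hg : g ≠ 0 := by
    rintro rfl
    rw [ss_zero H, dotProduct_zero] at hs
    exact hs rfl
  have h1 := balanced H hg hφ
  rw [← Function.Bijective.sum_comp (g := fun x => chi (φ ⬝ᵥ Ψ g x))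
    (Finite.injective_iff_bijective.mp hinj), sumV] at h1
  have hr : ∀ x, φ ⬝ᵥ Ψ g (g + x) = φ ⬝ᵥ Ψ g x := by
    intro x
    rw [row_self H, dotProduct_add, hq, zero_add]
  simp only [sum_two, lin] at h1
  simp [hr, H.zr] at h1
  have hs1 := ne_zero_iff.mp hs
  rw [ss_eq] at hs1
  simp only [dotProduct_add] at hs1
  rw [hq] at h1
  exact seven _ _ _ _ _ _ _ h1 hs1

theorem Q_add (g h : V) : Ψ (g + h) (g + h) = Ψ g g + Ψ h h + (Ψ g h + Ψ h g) := by
  have h1 := tt_eq H g h (g + h)
  have h2 := row_self H g h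
  have h3 := row_self H h g
  have h4 : tt Ψ g h (g + h) = 0 := by
    rw [tt_addh H]
    have := tt_addg H g h 0
    rw [zero_add, tt_z H] at this
    exact this
  rw [h4] at h1
  rw [add_comm h g] at h3
  grind

theorem B_add (g h k : V) :
    Ψ g (h + k) + Ψ (h + k) g = (Ψ g h + Ψ h g) + (Ψ g k + Ψ k g) := by
  have h1 : tt Ψ g h k = tt Ψ h k g := by rw [tt12 H, tt23]
  have h2 := tt_eq H h k g
  rw [← h1] at h2
  unfold tt at h2
  grind

theorem Q_three (x y z : V) : Ψ (x + (y + z)) (x + (y + z)) + Ψ (x + y) (x + y) +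
    Ψ (x + z) (x + z) + Ψ (y + z) (y + z) + Ψ x x + Ψ y y + Ψ z z = 0 := by
  have h1 := Q_add H x (y + z)
  have h2 := Q_add H x y
  have h3 := Q_add H x z
  have h4 := B_add H x y z
  grind

theorem ss_eq_zero (x y z w : V) : ss Ψ x y z w = 0 := by
  by_contra hs
  obtain ⟨φ, hφ⟩ : ∃ φ : V, φ ⬝ᵥ ss Ψ x y z w ≠ 0 := by
    by_contra hcon
    push Not at hcon
    exact hs (dual_zero _ hcon)
  have hφ0 : φ ≠ 0 := by
    rintro rfl
    rw [zero_dotProduct] at hφ
    exact hφ rfl
  have h3 := congrArg (fun v => φ ⬝ᵥ v) (Q_three H x y z)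
  simp only [dotProduct_add, dotProduct_zero] at h3
  rcases seven' _ _ _ _ _ _ _ h3 with h | h | h | h | h | h | h
  · have h' := ss_bal H (h := y) (k := z) (l := w) hφ0 h
    have := ss_comb H x y z w 1 1 0
    simp only [one_smul, zero_smul, add_zero] at this
    rw [this] at h'
    exact hφ h'
  · have h' := ss_bal H (h := y) (k := z) (l := w) hφ0 h
    have := ss_comb H x y z w 1 0 0
    simp only [one_smul, zero_smul, add_zero] at this
    rw [this] at h'
    exact hφ h'
  · have h' := ss_bal H (h := y) (k := z) (l := w) hφ0 h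
    have := ss_comb H x y z w 0 1 0
    simp only [one_smul, zero_smul, add_zero, zero_add] at this
    rw [this] at h'
    exact hφ h'
  · have h' := ss_bal H (h := x) (k := z) (l := w) hφ0 h
    have := ss_comb H y x z w 0 1 0
    simp only [one_smul, zero_smul, add_zero, zero_add] at this
    rw [this, ss12 H] at h'
    exact hφ h'
  · exact hφ (ss_bal H (h := y) (k := z) (l := w) hφ0 h)
  · have h' := ss_bal H (h := x) (k := z) (l := w) hφ0 h
    rw [ss12 H] at h'
    exact hφ h'
  · have h' := ss_bal H (h := y) (k := x) (l := w) hφ0 h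
    rw [ss12 H, ss23, ss12 H] at h'
    exact hφ h'

theorem tt_add3 (g h k l : V) : tt Ψ g h (k + l) = tt Ψ g h k + tt Ψ g h l := by
  have := ss_eq_zero H g h k l
  unfold ss at this
  grind

theorem tt_add2 (g h k l : V) : tt Ψ g (h + k) l = tt Ψ g h l + tt Ψ g k l := by
  rw [tt23, tt_add3 H, tt23, tt23 g l k]

theorem tt_add1 (g h k l : V) : tt Ψ (g + h) k l = tt Ψ g k l + tt Ψ h k l := by
  rw [tt12 H, tt_add2 H, tt12 H, tt12 H k h]

theorem tt_self23 (g h : V) : tt Ψ g h h = 0 := by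
  rw [tt13 H, tt_self H]

theorem tt_self13 (g h : V) : tt Ψ g h g = 0 := by
  rw [tt23, tt_self H]

/-- Columns are injective too. -/
theorem col_inj {h : V} (hh : h ≠ 0) : Function.Injective (fun g => Ψ g h) := by
  intro g g' hgg
  simp only at hgg
  by_contra hne
  have hk : g + g' ≠ 0 := fun h0 => hne (add_eq_zero.mp h0)
  have h1 := tt_eq H g (g + g') h
  rw [add_self_left] at h1
  have h2 := tt12 H g (g + g') h
  have h3 : tt Ψ (g + g') g h = Ψ (g + g') (g + h) + Ψ (g + g') g + Ψ (g + g') h := rfl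
  have h4 : Ψ (g + g') (g + h) = Ψ (g + g') (g + 0) := by
    rw [add_zero]
    grind
  have h5 := H.bi _ hk h4
  exact hh (by simpa using h5)

end

end Pool.Agent.Helper64.Rds
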