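import Pool.Agent.Helper64.Rds.NB1

/-!
# Orthogonal cocycles on `F_2^4` are bilinear
-/

set_option autoImplicit false
set_option synthInstance.maxHeartbeats 400000
set_option synthInstance.maxSize 1000

namespace Pool.Agent.Helper64.Rds

/-- First column test. -/
def ok1 (c0 : ℕ) : Bool := !(Nat.beq c0 0)

/-- Second column test. -/
def ok2 (c0 c1 : ℕ) : Bool := !(Nat.beq c1 0) && !(Nat.beq c1 c0)

/-- Third column test. -/
def ok3 (c0 c1 c2 : ℕ) : Bool :=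
  !(Nat.beq c2 0) && (!(Nat.beq c2 c0) && (!(Nat.beq c2 c1) && !(Nat.beq c2 (c0 ^^^ c1))))

/-- Fourth column test. -/
def ok4 (c0 c1 c2 c3 : ℕ) : Bool :=
  !(Nat.beq c3 0) && (!(Nat.beq c3 c0) && (!(Nat.beq c3 c1) && (!(Nat.beq c3 (c0 ^^^ c1)) &&
   (!(Nat.beq c3 c2) && (!(Nat.beq c3 (c2 ^^^ c0)) && (!(Nat.beq c3 (c2 ^^^ c1)) &&
   (!(Nat.beq c3 (c2 ^^^ (c0 ^^^ c1))))))))))

/-- Invertibility of a matrix of codes. -/
def okN (c0 c1 c2 c3 : ℕ) : Bool :=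
  ok1 c0 && (ok2 c0 c1 && (ok3 c0 c1 c2 && ok4 c0 c1 c2 c3))

theorem inj_of_ker {f : V → V} (h : Addi f) (hk : ∀ x, f x = 0 → x = 0) :
    Function.Injective f := by
  intro x y hxy
  have : f (x + y) = 0 := by rw [h, hxy, add_self]
  exact add_eq_zero.mp (hk _ this)

theorem okN_iff {c0 c1 c2 c3 : V} : okN (cd c0) (cd c1) (cd c2) (cd c3) = true ↔
    c0 ≠ 0 ∧ c1 ≠ 0 ∧ c1 ≠ c0 ∧ c2 ≠ 0 ∧ c2 ≠ c0 ∧ c2 ≠ c1 ∧ c2 ≠ c0 + c1 ∧
    c3 ≠ 0 ∧ c3 ≠ c0 ∧ c3 ≠ c1 ∧ c3 ≠ c0 + c1 ∧ c3 ≠ c2 ∧ c3 ≠ c2 + c0 ∧ c3 ≠ c2 + c1 ∧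
    c3 ≠ c2 + (c0 + c1) := by
  have hb : ∀ m n : ℕ, (!(Nat.beq m n)) = true ↔ m ≠ n := by
    intro m n
    rw [Bool.not_eq_true', ne_eq, ← Nat.beq_eq, Bool.not_eq_true]
  have hi : ∀ x y : V, cd x ≠ cd y ↔ x ≠ y := fun x y =>
    not_congr ⟨cd_inj, fun h => h ▸ rfl⟩
  have hz : ∀ x : V, cd x ≠ 0 ↔ x ≠ 0 := fun x => not_congr cd_eq_zero
  simp only [okN, ok1, ok2, ok3, ok4, Bool.and_eq_true, hb, ← cd_add, hi, hz, and_assoc]

theorem inj_of_okN {c0 c1 c2 c3 : V} (h : okN (cd c0) (cd c1) (cd c2) (cd c3) = true) :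
    Function.Injective (lin c0 c1 c2 c3) := by
  rw [okN_iff] at h
  obtain ⟨h0, h1, h2, h3, h4, h5, h6, h7, h8, h9, h10, h11, h12, h13, h14⟩ := h
  apply inj_of_ker (lin_add _ _ _ _)
  intro x hx
  by_contra hne
  unfold lin at hx
  rcases bool_cases (x 0) with a0 | a0 <;> rcases bool_cases (x 1) with a1 | a1 <;>
  rcases bool_cases (x 2) with a2 | a2 <;> rcases bool_cases (x 3) with a3 | a3 <;>
  rw [a0, a1, a2, a3] at hx <;>
  simp only [zero_smul, one_smul, zero_add, add_zero] at hx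
  · exact hne (by funext i; fin_cases i <;> assumption)
  all_goals grind

theorem okN_of_inj {c0 c1 c2 c3 : V} (h : Function.Injective (lin c0 c1 c2 c3)) :
    okN (cd c0) (cd c1) (cd c2) (cd c3) = true := by
  have key : ∀ x : V, x ≠ 0 → lin c0 c1 c2 c3 x ≠ 0 := by
    intro x hx h0
    apply hx
    apply h
    rw [h0]
    simp [lin]
  have k1 := key ![1, 0, 0, 0] (by decide)
  have k2 := key ![0, 1, 0, 0] (by decide)
  have k3 := key ![1, 1, 0, 0] (by decide)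
  have k4 := key ![0, 0, 1, 0] (by decide)
  have k5 := key ![1, 0, 1, 0] (by decide)
  have k6 := key ![0, 1, 1, 0] (by decide)
  have k7 := key ![1, 1, 1, 0] (by decide)
  have k8 := key ![0, 0, 0, 1] (by decide)
  have k9 := key ![1, 0, 0, 1] (by decide)
  have k10 := key ![0, 1, 0, 1] (by decide)
  have k11 := key ![1, 1, 0, 1] (by decide)
  have k12 := key ![0, 0, 1, 1] (by decide)
  have k13 := key ![1, 0, 1, 1] (by decide)
  have k14 := key ![0, 1, 1, 1] (by decide)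
  have k15 := key ![1, 1, 1, 1] (by decide)
  simp [lin] at k1 k2 k3 k4 k5 k6 k7 k8 k9 k10 k11 k12 k13 k14 k15
  rw [okN_iff]
  refine ⟨k1, k2, ?_, k4, ?_, ?_, ?_, k8, ?_, ?_, ?_, ?_, ?_, ?_, ?_⟩ <;> grind

theorem ex2_aux : ∀ g < 16, ∀ u < 16, g ≠ 0 → u ≠ 0 → g ≠ u →
    ∃ h < 16, ∃ k < 16, okN g u h k = true := by decide +kernel

/-- Dependence of three codes. -/
def dep3 (g u h : ℕ) : Bool := Nat.beq g 0 || (Nat.beq u 0 || (Nat.beq g u || (Nat.beq h 0 ||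
  (Nat.beq h g || (Nat.beq h u || Nat.beq h (g ^^^ u))))))

theorem ex3_aux : allb (fun g => allb (fun u => allb (fun h => dep3 g u h ||
    anyb (fun k => okN g u h k) 16) 16) 16) 16 = true := by decide +kernel

theorem ex_basis2 {g u : V} (hg : g ≠ 0) (hu : u ≠ 0) (hgu : g ≠ u) :
    ∃ h k, Function.Injective (lin g u h k) := by
  obtain ⟨h, hh, k, hk, hok⟩ := ex2_aux (cd g) (cd_lt g) (cd u) (cd_lt u)
    (fun h => hg (cd_eq_zero.mp h)) (fun h => hu (cd_eq_zero.mp h)) (fun h => hgu (cd_inj h))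
  refine ⟨dc h, dc k, inj_of_okN ?_⟩
  rwa [cd_dc h hh, cd_dc k hk]

theorem ex_basis3 {g u h : V} (hg : g ≠ 0) (hu : u ≠ 0) (hgu : g ≠ u) (hh : h ≠ 0) (hhg : h ≠ g)
    (hhu : h ≠ u) (hhgu : h ≠ g + u) :
    ∃ k, Function.Injective (lin g u h k) := by
  have h1 := allb_spec (allb_spec (allb_spec ex3_aux _ (cd_lt g)) _ (cd_lt u)) _ (cd_lt h)
  rw [Bool.or_eq_true] at h1
  rcases h1 with h1 | h1
  · exfalso
    simp only [dep3, Bool.or_eq_true, Nat.beq_eq, ← cd_add, cd_eq_zero] at h1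
    rcases h1 with h1 | h1 | h1 | h1 | h1 | h1 | h1
    · exact hg h1
    · exact hu h1
    · exact hgu (cd_inj h1)
    · exact hh h1
    · exact hhg (cd_inj h1)
    · exact hhu (cd_inj h1)
    · exact hhgu (cd_inj h1)
  obtain ⟨k, hk, hok⟩ := anyb_spec h1
  refine ⟨dc k, inj_of_okN ?_⟩
  rwa [cd_dc k hk]

theorem ker3_aux : ∀ b : V, ∃ x y z : V, b ⬝ᵥ x = 0 ∧ b ⬝ᵥ y = 0 ∧ b ⬝ᵥ z = 0 ∧ x ≠ 0 ∧ y ≠ 0 ∧
    z ≠ 0 ∧ x + y ≠ 0 ∧ x + z ≠ 0 ∧ y + z ≠ 0 ∧ x + (y + z) ≠ 0 := by decide +kernel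

theorem ext4 {b0 b1 b2 b3 : V} (hb : Function.Injective (lin b0 b1 b2 b3)) {f : V → ZMod 2}
    (hf : Addi f) (h0 : f b0 = 0) (h1 : f b1 = 0) (h2 : f b2 = 0) (h3 : f b3 = 0) :
    ∀ x, f x = 0 := by
  intro x
  obtain ⟨c, rfl⟩ := (Finite.injective_iff_surjective.mp hb) x
  rw [lin, hf, hf, hf, add_smul' hf, add_smul' hf, add_smul' hf, add_smul' hf, h0, h1, h2, h3]
  simp

theorem lin_e (x : V) : lin (e 0) (e 1) (e 2) (e 3) x = x := by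
  rw [lin, ← expand]

theorem inj_e : Function.Injective (lin (e 0) (e 1) (e 2) (e 3)) := by
  intro x y h
  rwa [lin_e, lin_e] at h

end Pool.Agent.Helper64.Rds
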