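import Pool.Agent.Helper64.Rds.NB2

/-!
# Orthogonal cocycles on `F_2^4` are bilinear: the main argument
-/

set_option autoImplicit false

namespace Pool.Agent.Helper64.Rds

/-- Symmetric alternating trilinear forms. -/
structure Tri (T : V → V → V → ZMod 2) : Prop where
  ad : ∀ x y, Addi (T x y)
  s12 : ∀ x y z, T x y z = T y x z
  s23 : ∀ x y z, T x y z = T x z y
  al : ∀ x z, T x x z = 0

namespace Tri
variable {T : V → V → V → ZMod 2} (h : Tri T)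
include h

theorem s13 (x y z : V) : T x y z = T z y x := by rw [h.s12, h.s23, h.s12]

theorem al23 (x y : V) : T x y y = 0 := by rw [h.s13, h.al]

theorem al13 (x y : V) : T x y x = 0 := by rw [h.s23, h.al]

theorem ad2 (x z : V) : Addi (fun y => T x y z) := by
  intro a b
  simp only
  rw [h.s23, h.ad, h.s23 x z a, h.s23 x z b]

theorem ad1 (y z : V) : Addi (fun x => T x y z) := by
  intro a b
  simp only
  rw [h.s13, h.ad, h.s13 z y a, h.s13 z y b]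

theorem zero_of {b0 b1 b2 b3 : V} (hb : Function.Injective (lin b0 b1 b2 b3))
    (h012 : T b0 b1 b2 = 0) (h013 : T b0 b1 b3 = 0) (h023 : T b0 b2 b3 = 0)
    (h123 : T b1 b2 b3 = 0) : ∀ x y z, T x y z = 0 := by
  have t01 := ext4 hb (h.ad b0 b1) (h.al13 _ _) (h.al23 _ _) h012 h013
  have t02 := ext4 hb (h.ad b0 b2) (h.al13 _ _) (by rw [h.s23, h012]) (h.al23 _ _) h023
  have t03 := ext4 hb (h.ad b0 b3) (h.al13 _ _) (by rw [h.s23, h013]) (by rw [h.s23, h023])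
    (h.al23 _ _)
  have t0 : ∀ y z, T b0 y z = 0 := fun y z =>
    ext4 hb (h.ad2 b0 z) (h.al _ _) (t01 z) (t02 z) (t03 z) y
  have t12 := ext4 hb (h.ad b1 b2) (by rw [h.s13, h.s23, t0]) (h.al13 _ _) (h.al23 _ _) h123
  have t13 := ext4 hb (h.ad b1 b3) (by rw [h.s13, h.s23, t0]) (h.al13 _ _)
    (by rw [h.s23, h123]) (h.al23 _ _)
  have t1 : ∀ y z, T b1 y z = 0 := fun y z =>
    ext4 hb (h.ad2 b1 z) (by rw [h.s12, t0]) (h.al _ _) (t12 z) (t13 z) y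
  have t23 := ext4 hb (h.ad b2 b3) (by rw [h.s13, h.s23, t0]) (by rw [h.s13, h.s23, t1])
    (h.al13 _ _) (h.al23 _ _)
  have t2 : ∀ y z, T b2 y z = 0 := fun y z =>
    ext4 hb (h.ad2 b2 z) (by rw [h.s12, t0]) (by rw [h.s12, t1]) (h.al _ _) (t23 z) y
  have t3 : ∀ y z, T b3 y z = 0 := fun y z =>
    ext4 hb (h.ad2 b3 z) (by rw [h.s12, t0]) (by rw [h.s12, t1]) (by rw [h.s12, t2])
      (h.al _ _) y
  intro x y z
  exact ext4 hb (h.ad1 y z) (t0 y z) (t1 y z) (t2 y z) (t3 y z) x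

end Tri

/-- The radical vector of a trilinear form. -/
def uvec (T : V → V → V → ZMod 2) : V :=
  ![T (e 1) (e 2) (e 3), T (e 0) (e 2) (e 3), T (e 0) (e 1) (e 3), T (e 0) (e 1) (e 2)]

theorem char2 (a b : ZMod 2) : a * b + b * a = 0 := by revert a b; decide

theorem tri_uz {T : V → V → V → ZMod 2} (h : Tri T) (hu : uvec T = 0) :
    ∀ x y z, T x y z = 0 :=
  h.zero_of inj_e (congrFun hu 3) (congrFun hu 2) (congrFun hu 1) (congrFun hu 0)

theorem tri_rad {T : V → V → V → ZMod 2} (h : Tri T) : ∀ x y, T x y (uvec T) = 0 := by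
  have e01 : T (e 0) (e 1) (uvec T) = 0 := by
    rw [eq_lin (h.ad _ _), h.al13, h.al23]
    simp only [lin, uvec, smul_eq_mul, mul_zero, zero_add]
    exact char2 _ _
  have e02 : T (e 0) (e 2) (uvec T) = 0 := by
    rw [eq_lin (h.ad _ _), h.al13, h.al23, h.s23 (e 0) (e 2) (e 1)]
    simp only [lin, uvec, smul_eq_mul, mul_zero, zero_add]
    exact char2 _ _
  have e03 : T (e 0) (e 3) (uvec T) = 0 := by
    rw [eq_lin (h.ad _ _), h.al13, h.al23, h.s23 (e 0) (e 3) (e 1), h.s23 (e 0) (e 3) (e 2)]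
    simp only [lin, uvec, smul_eq_mul, mul_zero, zero_add, add_zero]
    exact char2 _ _
  have e12 : T (e 1) (e 2) (uvec T) = 0 := by
    rw [eq_lin (h.ad _ _), h.al13, h.al23, h.s13 (e 1) (e 2) (e 0), h.s23 (e 0) (e 2) (e 1)]
    simp only [lin, uvec, smul_eq_mul, mul_zero, zero_add, add_zero]
    exact char2 _ _
  have e13 : T (e 1) (e 3) (uvec T) = 0 := by
    rw [eq_lin (h.ad _ _), h.al13, h.al23, h.s13 (e 1) (e 3) (e 0), h.s23 (e 0) (e 3) (e 1),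
      h.s23 (e 1) (e 3) (e 2)]
    simp only [lin, uvec, smul_eq_mul, mul_zero, zero_add, add_zero]
    exact char2 _ _
  have e23 : T (e 2) (e 3) (uvec T) = 0 := by
    rw [eq_lin (h.ad _ _), h.al13, h.al23, h.s13 (e 2) (e 3) (e 0), h.s23 (e 0) (e 3) (e 2),
      h.s13 (e 2) (e 3) (e 1), h.s23 (e 1) (e 3) (e 2)]
    simp only [lin, uvec, smul_eq_mul, mul_zero, zero_add, add_zero]
    exact char2 _ _
  have s := h.s12
  have t0 : ∀ y, T (e 0) y (uvec T) = 0 := ext4 inj_e (h.ad2 _ _) (h.al _ _) e01 e02 e03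
  have t1 : ∀ y, T (e 1) y (uvec T) = 0 :=
    ext4 inj_e (h.ad2 _ _) (by rw [h.s12, e01]) (h.al _ _) e12 e13
  have t2 : ∀ y, T (e 2) y (uvec T) = 0 :=
    ext4 inj_e (h.ad2 _ _) (by rw [h.s12, e02]) (by rw [h.s12, e12]) (h.al _ _) e23
  have t3 : ∀ y, T (e 3) y (uvec T) = 0 :=
    ext4 inj_e (h.ad2 _ _) (by rw [h.s12, e03]) (by rw [h.s12, e13]) (by rw [h.s12, e23])
      (h.al _ _)
  intro x y
  exact ext4 inj_e (h.ad1 y _) (t0 y) (t1 y) (t2 y) (t3 y) x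

/-- The radical vector attached to a functional. -/
def vv (Ψ : V → V → V) (φ : V) : V := uvec (fun x y z => φ ⬝ᵥ tt Ψ x y z)

theorem vv_add (Ψ : V → V → V) (φ φ' : V) : vv Ψ (φ + φ') = vv Ψ φ + vv Ψ φ' := by
  funext i
  fin_cases i <;> simp [vv, uvec, add_dotProduct]

theorem four : ∀ a b c : ZMod 2, c = 1 →
    chi 0 + chi a + (chi b + chi (b + a + c)) + (chi 0 + chi a + (chi b + chi (b + a + c))) +
    (chi 0 + chi a + (chi b + chi (b + a + c)) + (chi 0 + chi a + (chi b + chi (b + a + c)))) = 0 →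
    False := by decide

section
variable {Ψ : V → V → V} (H : Coc Ψ)
include H

theorem tri (φ : V) : Tri (fun x y z => φ ⬝ᵥ tt Ψ x y z) where
  ad x y := by
    intro a b
    simp only [tt_add3 H, dotProduct_add]
  s12 x y z := by simp only [tt12 H x y z]
  s23 x y z := by simp only [tt23 x y z]
  al x z := by simp only [tt_self H, dotProduct_zero]

theorem rad (φ x y : V) : φ ⬝ᵥ tt Ψ x y (vv Ψ φ) = 0 := tri_rad (tri H φ) x y

theorem vz {φ : V} (h : vv Ψ φ = 0) (x y z : V) : φ ⬝ᵥ tt Ψ x y z = 0 := tri_uz (tri H φ) h x y z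

omit H in
theorem row_add (φ g x y : V) :
    φ ⬝ᵥ Ψ g (x + y) = φ ⬝ᵥ Ψ g x + φ ⬝ᵥ Ψ g y + φ ⬝ᵥ tt Ψ g x y := by
  have h : Ψ g (x + y) = Ψ g x + Ψ g y + tt Ψ g x y := by unfold tt; grind
  rw [h, dotProduct_add, dotProduct_add]

theorem col_add (φ x y u : V) :
    φ ⬝ᵥ Ψ (x + y) u = φ ⬝ᵥ Ψ x u + φ ⬝ᵥ Ψ y u + φ ⬝ᵥ tt Ψ x y u := by
  have h : Ψ (x + y) u = Ψ x u + Ψ y u + tt Ψ x y u := by rw [tt_eq H]; grind
  rw [h, dotProduct_add, dotProduct_add]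

/-- The core non-vanishing statement. -/
theorem core {φ g : V} (hu : vv Ψ φ ≠ 0) (hg : g ≠ 0) (hgu : g ≠ vv Ψ φ)
    (h1 : φ ⬝ᵥ Ψ g g = 0) (h2 : φ ⬝ᵥ Ψ g (vv Ψ φ) = 0) : False := by
  have hφ : φ ≠ 0 := by
    rintro rfl
    apply hu
    have := vv_add Ψ 0 0
    simpa using this
  set u := vv Ψ φ with hudef
  obtain ⟨h, k, hinj⟩ := ex_basis2 hg hu hgu
  have T := tri H φ
  have hr := rad H φ
  rw [← hudef] at hr
  have hru : ∀ x y, φ ⬝ᵥ tt Ψ x u y = 0 := fun x y => by rw [tt23]; exact hr x y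
  have hghk : φ ⬝ᵥ tt Ψ g h k = 1 := by
    rw [← ne_zero_iff]
    intro h0
    apply hu
    have hz := T.zero_of hinj (hru g h) (hru g k) h0 (by
      change φ ⬝ᵥ tt Ψ u h k = 0
      rw [tt12 H]
      exact hru h k)
    rw [hudef]
    funext i
    fin_cases i <;> exact hz _ _ _
  have hb := balanced H hg hφ
  rw [← Function.Bijective.sum_comp (g := fun x => chi (φ ⬝ᵥ Ψ g x))
    (Finite.injective_iff_bijective.mp hinj), sumV] at hb
  have hrg : ∀ x, φ ⬝ᵥ Ψ g (g + x) = φ ⬝ᵥ Ψ g x := by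
    intro x
    rw [row_add, h1, tt_self H, dotProduct_zero, zero_add, add_zero]
  have hruu : ∀ x, φ ⬝ᵥ Ψ g (u + x) = φ ⬝ᵥ Ψ g x := by
    intro x
    rw [row_add, h2, hru, zero_add, add_zero]
  simp only [sum_two, lin] at hb
  simp [hrg, hruu, H.zr] at hb
  rw [row_add φ g h k, h1, h2] at hb
  exact four _ _ _ hghk hb

omit H in
theorem vv_zero' : vv Ψ 0 = 0 := by
  have := vv_add Ψ 0 0
  simpa using this

omit H in
theorem phi_ne {φ : V} (hu : vv Ψ φ ≠ 0) : φ ≠ 0 := by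
  rintro rfl
  exact hu vv_zero'

theorem col_additive (φ : V) : Addi (fun x => φ ⬝ᵥ Ψ x (vv Ψ φ)) := by
  intro x y
  simp only
  rw [col_add H, rad H, add_zero]

theorem row_additive (φ : V) : Addi (fun x => φ ⬝ᵥ Ψ (vv Ψ φ) x) := by
  intro x y
  simp only
  rw [row_add, tt13 H, tt12 H, rad H, add_zero]

omit H in
theorem eq_dot {f : V → ZMod 2} (hf : Addi f) : ∃ b : V, ∀ x, f x = b ⬝ᵥ x := by
  refine ⟨![f (e 0), f (e 1), f (e 2), f (e 3)], fun x => ?_⟩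
  rw [eq_lin hf, lin, dotProduct, Fin.sum_univ_four]
  simp only [smul_eq_mul, Matrix.cons_val]
  ring

omit H in
theorem ker3 {f : V → ZMod 2} (hf : Addi f) : ∃ x y z : V, f x = 0 ∧ f y = 0 ∧ f z = 0 ∧ x ≠ 0 ∧
    y ≠ 0 ∧ z ≠ 0 ∧ x + y ≠ 0 ∧ x + z ≠ 0 ∧ y + z ≠ 0 ∧ x + (y + z) ≠ 0 := by
  obtain ⟨b, hb⟩ := eq_dot hf
  obtain ⟨x, y, z, h⟩ := ker3_aux b
  exact ⟨x, y, z, by simpa only [hb] using h⟩

/-- The quadratic form of a functional vanishes at its radical vector. -/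
theorem q_rad {φ : V} (hu : vv Ψ φ ≠ 0) : φ ⬝ᵥ Ψ (vv Ψ φ) (vv Ψ φ) = 0 := by
  by_contra h1
  have hβ := col_additive H φ
  obtain ⟨x, y, z, hx, hy, hz, x0, y0, z0, xy0, xz0, yz0, xyz0⟩ := ker3 hβ
  have key : ∀ w, w ≠ 0 → φ ⬝ᵥ Ψ w (vv Ψ φ) = 0 → φ ⬝ᵥ Ψ w w ≠ 0 := by
    intro w hw h2 h3
    refine core H hu hw ?_ h3 h2
    rintro rfl
    exact h1 h2
  have hxy : φ ⬝ᵥ Ψ (x + y) (vv Ψ φ) = 0 := by
    have := hβ x y
    simp only [hx, hy, add_zero] at this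
    exact this
  have hxz : φ ⬝ᵥ Ψ (x + z) (vv Ψ φ) = 0 := by
    have := hβ x z
    simp only [hx, hz, add_zero] at this
    exact this
  have hyz : φ ⬝ᵥ Ψ (y + z) (vv Ψ φ) = 0 := by
    have := hβ y z
    simp only [hy, hz, add_zero] at this
    exact this
  have hxyz : φ ⬝ᵥ Ψ (x + (y + z)) (vv Ψ φ) = 0 := by
    have := hβ x (y + z)
    simp only [hx, hyz, add_zero] at this
    exact this
  have h3 := congrArg (fun v => φ ⬝ᵥ v) (Q_three H x y z)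
  simp only [dotProduct_add, dotProduct_zero] at h3
  rcases seven' _ _ _ _ _ _ _ h3 with h | h | h | h | h | h | h
  · exact key _ xyz0 hxyz h
  · exact key _ xy0 hxy h
  · exact key _ xz0 hxz h
  · exact key _ yz0 hyz h
  · exact key _ x0 hx h
  · exact key _ y0 hy h
  · exact key _ z0 hz h

omit H in
theorem eq_of_ker {f g : V → ZMod 2} (hf : Addi f) (hg : Addi g) (h : ∀ x, f x = 0 → g x = 0)
    (hne : ∃ x, g x = 1) : ∀ x, f x = g x := by
  obtain ⟨y, hy⟩ := hne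
  have hfy : f y = 1 := by
    rw [← ne_zero_iff]
    intro h0
    rw [h y h0] at hy
    exact absurd hy (by decide)
  intro x
  rcases bool_cases (f x) with h0 | h0
  · rw [h0, h x h0]
  · have h1 : f (x + y) = 0 := by rw [hf, h0, hfy]; decide
    have h2 := h _ h1
    rw [hg, hy] at h2
    rw [h0]
    generalize g x = c at h2
    revert h2 c
    decide

omit H in
theorem exists_dot {φ : V} (hφ : φ ≠ 0) : ∃ x : V, φ ⬝ᵥ x = 1 := by
  by_contra hcon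
  push Not at hcon
  apply hφ
  apply dual_zero
  intro x
  rw [dotProduct_comm]
  exact ne_one_iff.mp (hcon x)

theorem exists_row {φ g : V} (hφ : φ ≠ 0) (hg : g ≠ 0) : ∃ x, φ ⬝ᵥ Ψ g x = 1 := by
  obtain ⟨y, hy⟩ := exists_dot hφ
  obtain ⟨x, rfl⟩ := (Finite.injective_iff_surjective.mp (H.bi g hg)) y
  exact ⟨x, hy⟩

theorem exists_col {φ g : V} (hφ : φ ≠ 0) (hg : g ≠ 0) : ∃ x, φ ⬝ᵥ Ψ x g = 1 := by
  obtain ⟨y, hy⟩ := exists_dot hφ
  obtain ⟨x, hx⟩ := (Finite.injective_iff_surjective.mp (col_inj H hg)) y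
  simp only at hx
  exact ⟨x, by rw [hx]; exact hy⟩

theorem q_one {φ w : V} (hu : vv Ψ φ ≠ 0) (hw : w ≠ 0) (hwu : w ≠ vv Ψ φ)
    (h : φ ⬝ᵥ Ψ w (vv Ψ φ) = 0) : φ ⬝ᵥ Ψ w w = 1 :=
  ne_zero_iff.mp (fun h3 => core H hu hw hwu h3 h)

/-- The radical vector lies in the radical of the polar form. -/
theorem polar_rad (φ h : V) : φ ⬝ᵥ Ψ (vv Ψ φ) h = φ ⬝ᵥ Ψ h (vv Ψ φ) := by
  by_cases hu : vv Ψ φ = 0
  · rw [hu, H.zl, H.zr]
  · symm
    refine eq_of_ker (col_additive H φ) (row_additive H φ) ?_ (exists_row H (phi_ne hu) hu) h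
    intro x hx
    by_cases hx0 : x = 0
    · rw [hx0, H.zr, dotProduct_zero]
    by_cases hxu : x = vv Ψ φ
    · rw [hxu, q_rad H hu]
    have h1 := q_one H hu hx0 hxu hx
    have hx' : φ ⬝ᵥ Ψ (x + vv Ψ φ) (vv Ψ φ) = 0 := by
      have := col_additive H φ x (vv Ψ φ)
      simp only [hx, q_rad H hu, add_zero] at this
      exact this
    have h2 := q_one H hu (fun h0 => hxu (add_eq_zero.mp h0)) (fun h0 => hx0 (by simpa using h0))
      hx'
    rw [Q_add H, dotProduct_add, dotProduct_add, dotProduct_add, h1, q_rad H hu, hx] at h2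
    generalize φ ⬝ᵥ Ψ (vv Ψ φ) x = c at h2
    revert h2 c
    decide

/-- The alternating form on functionals. -/
theorem G_self (φ : V) : φ ⬝ᵥ Ψ (vv Ψ φ) (vv Ψ φ) = 0 := by
  by_cases hu : vv Ψ φ = 0
  · rw [hu, H.zl, dotProduct_zero]
  · exact q_rad H hu

theorem polar_zero (φ h : V) : φ ⬝ᵥ (Ψ (vv Ψ φ) h + Ψ h (vv Ψ φ)) = 0 := by
  rw [dotProduct_add, polar_rad H]
  exact CharTwo.add_self_eq_zero _

theorem G_symm (φ φ' : V) :
    φ ⬝ᵥ Ψ (vv Ψ φ') (vv Ψ φ') = φ' ⬝ᵥ Ψ (vv Ψ φ) (vv Ψ φ) := by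
  have h := G_self H (φ + φ')
  rw [vv_add, Q_add H] at h
  have h1 := polar_zero H φ (vv Ψ φ')
  have h2 := polar_zero H φ' (vv Ψ φ)
  rw [add_comm (Ψ (vv Ψ φ') _)] at h2
  rw [add_dotProduct, dotProduct_add, dotProduct_add, h1, dotProduct_add φ', h2, dotProduct_add,
    G_self H, G_self H] at h
  generalize φ ⬝ᵥ Ψ (vv Ψ φ') (vv Ψ φ') = a at *
  generalize φ' ⬝ᵥ Ψ (vv Ψ φ) (vv Ψ φ) = b at *
  revert h a b
  decide

end

end Pool.Agent.Helper64.Rds
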