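import Pool.Agent.Helper64.Rds.NB3

/-!
# Orthogonal cocycles on `F_2^4` are bilinear: conclusion
-/

set_option autoImplicit false

namespace Pool.Agent.Helper64.Rds

/-- The alternating form on functionals. -/
def G (Ψ : V → V → V) (φ φ' : V) : ZMod 2 := φ ⬝ᵥ Ψ (vv Ψ φ') (vv Ψ φ')

theorem exists_dot' {x : V} (hx : x ≠ 0) : ∃ φ : V, φ ⬝ᵥ x = 1 := by
  obtain ⟨y, hy⟩ := exists_dot hx
  exact ⟨y, by rw [dotProduct_comm]; exact hy⟩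

theorem ker2 {f : V → ZMod 2} (hf : Addi f) (u : V) : ∃ x y : V, f x = 0 ∧ f y = 0 ∧
    x ≠ 0 ∧ y ≠ 0 ∧ x + y ≠ 0 ∧ x ≠ u ∧ y ≠ u ∧ x + y ≠ u := by
  obtain ⟨x, y, z, hx, hy, hz, x0, y0, z0, xy0, xz0, yz0, xyz0⟩ := ker3 hf
  by_cases h1 : u = x
  · subst h1
    refine ⟨y, z, hy, hz, y0, z0, yz0, fun h => xy0 (by rw [h, add_self]),
      fun h => xz0 (by rw [h, add_self]), fun h => xyz0 (by rw [h, add_self])⟩
  · by_cases h2 : u = y ∨ u = x + y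
    · refine ⟨x, z, hx, hz, x0, z0, xz0, fun h => h1 h.symm, ?_, ?_⟩
      · rcases h2 with rfl | rfl
        · exact fun h => yz0 (by rw [h, add_self])
        · intro h
          exact xyz0 (by rw [h]; grind)
      · rcases h2 with rfl | rfl
        · intro h
          exact xyz0 (by rw [← h]; grind)
        · intro h
          exact yz0 (by grind)
    · push Not at h2
      exact ⟨x, y, hx, hy, x0, y0, xy0, fun h => h1 h.symm, fun h => h2.1 h.symm,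
        fun h => h2.2 h.symm⟩

section
variable {Ψ : V → V → V} (H : Coc Ψ)
include H

theorem G_comm (φ φ' : V) : G Ψ φ φ' = G Ψ φ' φ := G_symm H φ φ'

omit H in
theorem G_a1 (ψ : V) : Addi (fun φ => G Ψ φ ψ) := fun _ _ => add_dotProduct _ _ _

theorem G_a2 (ψ : V) : Addi (fun φ => G Ψ ψ φ) := by
  intro x y
  simp only
  rw [G_comm H, G_comm H ψ x, G_comm H ψ y]
  exact G_a1 ψ x y

theorem G_s (φ : V) : G Ψ φ φ = 0 := G_self H φ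

theorem G_nd {φ : V} (h : vv Ψ φ ≠ 0) : ∃ ψ, G Ψ ψ φ = 1 := by
  apply exists_dot'
  intro h0
  apply h
  exact H.bi _ h (h0.trans (H.zr _).symm)

theorem G_vz {φ : V} (h : vv Ψ φ = 0) (ψ : V) : G Ψ φ ψ = 0 := by
  rw [G_comm H, G, h, H.zl, dotProduct_zero]

/-- The rank four case. -/
theorem case4 (hsurj : Function.Surjective (vv Ψ)) : False := by
  have hQ : ∀ x y, Ψ (x + y) (x + y) = Ψ x x + Ψ y y := by
    intro x y
    obtain ⟨φ, rfl⟩ := hsurj x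
    obtain ⟨φ', rfl⟩ := hsurj y
    rw [← add_eq_zero]
    apply dual_zero
    intro ψ
    have h := G_a2 H ψ φ φ'
    simp only [G, vv_add] at h
    rw [dotProduct_add, dotProduct_add, h]
    exact CharTwo.add_self_eq_zero _
  obtain ⟨φ, hφ⟩ := hsurj (e 0)
  have hu : vv Ψ φ ≠ 0 := by
    rw [hφ]
    decide
  obtain ⟨x, y, hx, hy, x0, y0, xy0, xu, yu, xyu⟩ := ker2 (col_additive H φ) (vv Ψ φ)
  have hxy : φ ⬝ᵥ Ψ (x + y) (vv Ψ φ) = 0 := by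
    have := col_additive H φ x y
    simp only [hx, hy, add_zero] at this
    exact this
  have h1 := q_one H hu x0 xu hx
  have h2 := q_one H hu y0 yu hy
  have h3 := q_one H hu xy0 xyu hxy
  rw [hQ, dotProduct_add, h1, h2] at h3
  revert h3
  decide

theorem K_Q {κ : V} (hκ : vv Ψ κ = 0) (φ : V) : κ ⬝ᵥ Ψ (vv Ψ φ) (vv Ψ φ) = 0 := G_vz H hκ φ

theorem K_polar {κ : V} (hκ : vv Ψ κ = 0) (φ h : V) :
    κ ⬝ᵥ (Ψ (vv Ψ φ) h + Ψ h (vv Ψ φ)) = 0 := by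
  have h1 := polar_zero H φ h
  have h2 := polar_zero H (φ + κ) h
  rw [vv_add, hκ, add_zero, add_dotProduct, h1, zero_add] at h2
  exact h2

theorem K_row {κ : V} (hκ : vv Ψ κ = 0) (g : V) : Addi (fun x => κ ⬝ᵥ Ψ g x) := by
  intro x y
  simp only
  rw [row_add, vz H hκ, add_zero]

theorem K_col {κ : V} (hκ : vv Ψ κ = 0) (g : V) : Addi (fun x => κ ⬝ᵥ Ψ x g) := by
  intro x y
  simp only
  rw [col_add H, vz H hκ, add_zero]

/-- The adjusting argument. -/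
theorem adjust {φ κ κ' g : V} (hκ : vv Ψ κ = 0) (hκ' : vv Ψ κ' = 0) (hu : vv Ψ φ ≠ 0)
    (hg : g ≠ 0) (hgu : g ≠ vv Ψ φ) (h1 : κ ⬝ᵥ Ψ g g = 1) (h2 : κ' ⬝ᵥ Ψ g g = 0) :
    κ' ⬝ᵥ Ψ g (vv Ψ φ) = 0 := by
  by_contra h3
  rw [← ne_eq, ne_zero_iff] at h3
  obtain ⟨a, b, hq, hb⟩ : ∃ a b : ZMod 2,
      (φ + (a • κ + b • κ')) ⬝ᵥ Ψ g g = 0 ∧
      (φ + (a • κ + b • κ')) ⬝ᵥ Ψ g (vv Ψ φ) = 0 := by
    simp only [add_dotProduct, smul_dotProduct, h1, h2, h3, smul_eq_mul]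
    generalize φ ⬝ᵥ Ψ g g = x
    generalize φ ⬝ᵥ Ψ g (vv Ψ φ) = y
    generalize κ ⬝ᵥ Ψ g (vv Ψ φ) = z
    revert x y z
    decide
  have hv : vv Ψ (φ + (a • κ + b • κ')) = vv Ψ φ := by
    rw [vv_add, vv_add, add_smul' (vv_add Ψ), add_smul' (vv_add Ψ), hκ, hκ']
    simp
  refine core H (φ := φ + (a • κ + b • κ')) ?_ hg ?_ hq ?_
  · rwa [hv]
  · rwa [hv]
  · rwa [hv]

/-- Quadratic forms in the kernel vanish, main step. -/
theorem D1 {φ1 φ2 κ κ' g : V} (hκ : vv Ψ κ = 0) (hκ' : vv Ψ κ' = 0) (hκ0 : κ' ≠ 0)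
    (hu1 : vv Ψ φ1 ≠ 0) (hu2 : vv Ψ φ2 ≠ 0) (hu12 : vv Ψ φ1 ≠ vv Ψ φ2)
    (h1 : κ ⬝ᵥ Ψ g g = 1) (h2 : κ' ⬝ᵥ Ψ g g = 0) : False := by
  -- `g` is not a radical vector
  have hgP : ∀ φ, g ≠ vv Ψ φ := by
    rintro φ rfl
    rw [K_Q H hκ] at h1
    exact absurd h1 (by decide)
  have key : ∀ φ ψ, κ' ⬝ᵥ Ψ (g + vv Ψ ψ) (vv Ψ φ) = 0 := by
    intro φ ψ
    by_cases hu : vv Ψ φ = 0
    · rw [hu, H.zr, dotProduct_zero]
    have hb : ∀ κ : V, vv Ψ κ = 0 → κ ⬝ᵥ Ψ (g + vv Ψ ψ) (g + vv Ψ ψ) = κ ⬝ᵥ Ψ g g := by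
      intro κ hκ
      rw [Q_add H, dotProduct_add, dotProduct_add, K_Q H hκ, add_comm (Ψ g (vv Ψ ψ)),
        K_polar H hκ, add_zero, add_zero]
    refine adjust H hκ hκ' hu ?_ ?_ (by rw [hb κ hκ, h1]) (by rw [hb κ' hκ', h2])
    · intro h0
      exact hgP ψ (add_eq_zero.mp h0)
    · intro h0
      apply hgP (ψ + φ)
      rw [vv_add, ← h0]
      grind
  have kg : ∀ φ, κ' ⬝ᵥ Ψ g (vv Ψ φ) = 0 := by
    intro φ
    have := key φ 0
    rwa [vv_zero', add_zero] at this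
  have ku : ∀ φ ψ, κ' ⬝ᵥ Ψ (vv Ψ ψ) (vv Ψ φ) = 0 := by
    intro φ ψ
    have h3 := key φ ψ
    have h4 := K_col H hκ' (vv Ψ φ) g (vv Ψ ψ)
    simp only [h3, kg, zero_add] at h4
    exact h4.symm
  obtain ⟨y, hinj⟩ := ex_basis3 hu1 hu2 hu12 (h := g) (by simpa [vv_zero'] using hgP 0) (hgP φ1)
    (hgP φ2) (by rw [← vv_add]; exact hgP _)
  have hy : ∀ φ, vv Ψ φ ≠ 0 → κ' ⬝ᵥ Ψ y (vv Ψ φ) = 1 := by
    intro φ hφ
    rw [← ne_zero_iff]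
    intro h0
    obtain ⟨x, hx⟩ := exists_col H hκ0 hφ
    have := ext4 hinj (K_col H hκ' (vv Ψ φ)) (ku _ _) (ku _ _) (kg _) h0 x
    rw [hx] at this
    exact absurd this (by decide)
  have h5 := hy (φ1 + φ2) (by rw [vv_add]; exact fun h0 => hu12 (add_eq_zero.mp h0))
  have h6 := K_row H hκ' y (vv Ψ φ1) (vv Ψ φ2)
  simp only at h6
  rw [vv_add, h6, hy φ1 hu1, hy φ2 hu2] at h5
  revert h5
  decide

/-- Counting zeros. -/
theorem Zcard {φ φ' κ1 κ2 : V} (hκ1 : vv Ψ κ1 = 0) (hκ2 : vv Ψ κ2 = 0) (hu : vv Ψ φ ≠ 0)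
    (hQ1 : ∀ g, κ1 ⬝ᵥ Ψ g g = 0) (hQ2 : ∀ g, κ2 ⬝ᵥ Ψ g g = 0)
    (hsep : ∀ x, φ ⬝ᵥ x = 0 → φ' ⬝ᵥ x = 0 → κ1 ⬝ᵥ x = 0 → κ2 ⬝ᵥ x = 0 → x = 0) :
    (Finset.univ.filter (fun g : V => g ≠ 0 ∧ φ ⬝ᵥ Ψ g g = 0)).card ≤ 3 := by
  classical
  set Z := Finset.univ.filter (fun g : V => g ≠ 0 ∧ φ ⬝ᵥ Ψ g g = 0) with hZ
  have h1 : (Z.erase (vv Ψ φ)).card ≤ (Finset.univ : Finset (ZMod 2)).card := by
    apply Finset.card_le_card_of_injOn (fun g => φ' ⬝ᵥ Ψ g (vv Ψ φ)) (fun _ _ => Finset.mem_univ _)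
    have key : ∀ g ∈ Z.erase (vv Ψ φ), ∀ κ, vv Ψ κ = 0 → κ ⬝ᵥ Ψ g g = 0 →
        (φ + κ) ⬝ᵥ Ψ g (vv Ψ φ) = 1 := by
      intro g hg κ hκ hκg
      rw [Finset.mem_erase, hZ, Finset.mem_filter] at hg
      rw [← ne_zero_iff]
      intro h0
      have hv : vv Ψ (φ + κ) = vv Ψ φ := by rw [vv_add, hκ, add_zero]
      refine core H (φ := φ + κ) (g := g) (by rwa [hv]) hg.2.2.1 (by rw [hv]; exact hg.1) ?_
        (by rwa [hv])
      rw [add_dotProduct, hg.2.2.2, hκg, add_zero]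
    have k0 : ∀ g ∈ Z.erase (vv Ψ φ), φ ⬝ᵥ Ψ g (vv Ψ φ) = 1 := by
      intro g hg
      have := key g hg 0 vv_zero' (zero_dotProduct _)
      rwa [add_zero] at this
    have kk : ∀ g ∈ Z.erase (vv Ψ φ), ∀ κ, vv Ψ κ = 0 → κ ⬝ᵥ Ψ g g = 0 →
        κ ⬝ᵥ Ψ g (vv Ψ φ) = 0 := by
      intro g hg κ hκ hκg
      have := key g hg κ hκ hκg
      rw [add_dotProduct, k0 g hg] at this
      generalize κ ⬝ᵥ Ψ g (vv Ψ φ) = c at this
      revert this c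
      decide
    intro g hg g' hg' heq
    apply col_inj H hu
    rw [← add_eq_zero]
    apply hsep
    · rw [dotProduct_add, k0 g hg, k0 g' hg']; decide
    · rw [dotProduct_add]
      change φ' ⬝ᵥ Ψ g (vv Ψ φ) = φ' ⬝ᵥ Ψ g' (vv Ψ φ) at heq
      rw [heq]
      exact CharTwo.add_self_eq_zero _
    · rw [dotProduct_add, kk g hg κ1 hκ1 (hQ1 g), kk g' hg' κ1 hκ1 (hQ1 g'), add_zero]
    · rw [dotProduct_add, kk g hg κ2 hκ2 (hQ2 g), kk g' hg' κ2 hκ2 (hQ2 g'), add_zero]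
  have h2 : (Finset.univ : Finset (ZMod 2)).card = 2 := by decide
  have h3 := Finset.pred_card_le_card_erase (s := Z) (a := vv Ψ φ)
  omega

omit H in
theorem sep_of {b0 b1 b2 b3 : V} (hb : Function.Injective (lin b0 b1 b2 b3)) (x : V)
    (h0 : b0 ⬝ᵥ x = 0) (h1 : b1 ⬝ᵥ x = 0) (h2 : b2 ⬝ᵥ x = 0) (h3 : b3 ⬝ᵥ x = 0) : x = 0 := by
  apply dual_zero
  exact ext4 hb (f := fun φ => φ ⬝ᵥ x) (fun _ _ => add_dotProduct _ _ _) h0 h1 h2 h3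

/-- The rank two case. -/
theorem case2 {φ1 φ2 κ1 κ2 : V} (hb : Function.Injective (lin φ1 φ2 κ1 κ2))
    (hκ1 : vv Ψ κ1 = 0) (hκ2 : vv Ψ κ2 = 0) (hG : G Ψ φ1 φ2 = 1) : False := by
  classical
  have hu2 : vv Ψ φ2 ≠ 0 := by
    intro h0
    rw [G_comm H, G_vz H h0] at hG
    exact absurd hG (by decide)
  have hu1 : vv Ψ φ1 ≠ 0 := by
    intro h0
    rw [G_vz H h0] at hG
    exact absurd hG (by decide)
  have hu12 : vv Ψ φ1 ≠ vv Ψ φ2 := by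
    intro h0
    have h1 := G_s H φ1
    rw [G, h0] at h1
    rw [G, h1] at hG
    exact absurd hG (by decide)
  have hu3 : vv Ψ (φ1 + φ2) ≠ 0 := by
    rw [vv_add]
    exact fun h0 => hu12 (add_eq_zero.mp h0)
  have hκ3 : vv Ψ (κ1 + κ2) = 0 := by rw [vv_add, hκ1, hκ2, add_zero]
  have k1 : κ1 ≠ 0 := by
    rintro rfl
    have : (e 2 : V) = 0 := hb (by simp [lin, e])
    exact absurd this (by decide)
  have k2 : κ2 ≠ 0 := by
    rintro rfl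
    have : (e 3 : V) = 0 := hb (by simp [lin, e])
    exact absurd this (by decide)
  have k3 : κ1 + κ2 ≠ 0 := by
    intro h0
    have : (e 2 + e 3 : V) = 0 := hb (by
      rw [lin_add]
      have h1 : lin φ1 φ2 κ1 κ2 (e 2) = κ1 := by simp [lin, e]
      have h2 : lin φ1 φ2 κ1 κ2 (e 3) = κ2 := by simp [lin, e]
      rw [h1, h2, h0]
      simp [lin])
    exact absurd this (by decide)
  have hQ1 : ∀ g, κ1 ⬝ᵥ Ψ g g = 0 := by
    intro g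
    by_contra h0
    rw [← ne_eq, ne_zero_iff] at h0
    rcases bool_cases (κ2 ⬝ᵥ Ψ g g) with h1 | h1
    · exact D1 H hκ1 hκ2 k2 hu1 hu2 hu12 h0 h1
    · refine D1 H hκ1 hκ3 k3 hu1 hu2 hu12 h0 ?_
      rw [add_dotProduct, h0, h1]
      decide
  have hQ2 : ∀ g, κ2 ⬝ᵥ Ψ g g = 0 := by
    intro g
    by_contra h0
    rw [← ne_eq, ne_zero_iff] at h0
    exact D1 H hκ2 hκ1 k1 hu1 hu2 hu12 h0 (hQ1 g)
  have c1 := Zcard H (φ := φ1) (φ' := φ2) hκ1 hκ2 hu1 hQ1 hQ2 (fun x a b c d => sep_of hb x a b c d)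
  have c2 := Zcard H (φ := φ2) (φ' := φ1) hκ1 hκ2 hu2 hQ1 hQ2 (fun x a b c d => sep_of hb x b a c d)
  have c3 := Zcard H (φ := φ1 + φ2) (φ' := φ1) hκ1 hκ2 hu3 hQ1 hQ2 (fun x a b c d => by
    refine sep_of hb x b ?_ c d
    rwa [add_dotProduct, b, zero_add] at a)
  have hsub : (Finset.univ.erase (0 : V)) ⊆
      (Finset.univ.filter (fun g : V => g ≠ 0 ∧ φ1 ⬝ᵥ Ψ g g = 0)) ∪
      ((Finset.univ.filter (fun g : V => g ≠ 0 ∧ φ2 ⬝ᵥ Ψ g g = 0)) ∪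
      (Finset.univ.filter (fun g : V => g ≠ 0 ∧ (φ1 + φ2) ⬝ᵥ Ψ g g = 0))) := by
    intro g hg
    have hg0 := (Finset.mem_erase.mp hg).1
    simp only [Finset.mem_union, Finset.mem_filter, Finset.mem_univ, true_and, hg0, ne_eq,
      not_false_eq_true, add_dotProduct]
    generalize φ1 ⬝ᵥ Ψ g g = a
    generalize φ2 ⬝ᵥ Ψ g g = b
    revert a b
    decide
  have hcard := Finset.card_le_card hsub
  have hU1 := Finset.card_union_le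
    (Finset.univ.filter (fun g : V => g ≠ 0 ∧ φ1 ⬝ᵥ Ψ g g = 0))
      ((Finset.univ.filter (fun g : V => g ≠ 0 ∧ φ2 ⬝ᵥ Ψ g g = 0)) ∪
      (Finset.univ.filter (fun g : V => g ≠ 0 ∧ (φ1 + φ2) ⬝ᵥ Ψ g g = 0)))
  have hU2 := Finset.card_union_le
      (Finset.univ.filter (fun g : V => g ≠ 0 ∧ φ2 ⬝ᵥ Ψ g g = 0))
      (Finset.univ.filter (fun g : V => g ≠ 0 ∧ (φ1 + φ2) ⬝ᵥ Ψ g g = 0))
  have h16 : (Finset.univ.erase (0 : V)).card = 15 := by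
    rw [Finset.card_erase_of_mem (Finset.mem_univ _), Finset.card_univ]
    simp
  omega

theorem bilin : ∀ g h k, tt Ψ g h k = 0 := by
  by_contra hcon
  obtain ⟨φ2, hφ2⟩ : ∃ φ, vv Ψ φ ≠ 0 := by
    by_contra h0
    push Not at h0
    apply hcon
    intro g h k
    exact dual_zero _ (fun φ => vz H (h0 φ) g h k)
  obtain ⟨φ1, hG⟩ := G_nd H hφ2
  have hG' : G Ψ φ2 φ1 = 1 := by rw [G_comm H, hG]
  have hne1 : φ1 ≠ 0 := by
    rintro rfl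
    rw [G_vz H vv_zero'] at hG
    exact absurd hG (by decide)
  have hne2 : φ2 ≠ 0 := phi_ne hφ2
  have hne : φ1 ≠ φ2 := by
    rintro rfl
    rw [G_s H] at hG
    exact absurd hG (by decide)
  obtain ⟨h, k, hinj⟩ := ex_basis2 hne1 hne2 hne
  have hperp1 : ∀ x, G Ψ (x + (G Ψ x φ2 • φ1 + G Ψ x φ1 • φ2)) φ1 = 0 := by
    intro x
    have h1 := G_a1 (Ψ := Ψ) φ1
    have h2 := h1 x (G Ψ x φ2 • φ1 + G Ψ x φ1 • φ2)
    have h3 := h1 (G Ψ x φ2 • φ1) (G Ψ x φ1 • φ2)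
    have h4 := add_smul' h1 (G Ψ x φ2) φ1
    have h5 := add_smul' h1 (G Ψ x φ1) φ2
    simp only at h2 h3 h4 h5
    rw [h2, h3, h4, h5, G_s H, hG', smul_eq_mul, smul_eq_mul, mul_one, mul_zero, zero_add]
    exact CharTwo.add_self_eq_zero _
  have hperp2 : ∀ x, G Ψ (x + (G Ψ x φ2 • φ1 + G Ψ x φ1 • φ2)) φ2 = 0 := by
    intro x
    have h1 := G_a1 (Ψ := Ψ) φ2
    have h2 := h1 x (G Ψ x φ2 • φ1 + G Ψ x φ1 • φ2)
    have h3 := h1 (G Ψ x φ2 • φ1) (G Ψ x φ1 • φ2)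
    have h4 := add_smul' h1 (G Ψ x φ2) φ1
    have h5 := add_smul' h1 (G Ψ x φ1) φ2
    simp only at h2 h3 h4 h5
    rw [h2, h3, h4, h5, G_s H, hG, smul_eq_mul, smul_eq_mul, mul_one, mul_zero, add_zero]
    exact CharTwo.add_self_eq_zero _
  obtain ⟨κ1, hκ1⟩ : ∃ κ, κ = h + (G Ψ h φ2 • φ1 + G Ψ h φ1 • φ2) := ⟨_, rfl⟩
  obtain ⟨κ2, hκ2⟩ : ∃ κ, κ = k + (G Ψ k φ2 • φ1 + G Ψ k φ1 • φ2) := ⟨_, rfl⟩
  have g11 : G Ψ κ1 φ1 = 0 := by rw [hκ1]; exact hperp1 h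
  have g12 : G Ψ κ1 φ2 = 0 := by rw [hκ1]; exact hperp2 h
  have g21 : G Ψ κ2 φ1 = 0 := by rw [hκ2]; exact hperp1 k
  have g22 : G Ψ κ2 φ2 = 0 := by rw [hκ2]; exact hperp2 k
  have hexp : ∀ c ψ : V, G Ψ (lin φ1 φ2 κ1 κ2 c) ψ =
      c 0 * G Ψ φ1 ψ + (c 1 * G Ψ φ2 ψ + (c 2 * G Ψ κ1 ψ + c 3 * G Ψ κ2 ψ)) := by
    intro c ψ
    have h1 := G_a1 (Ψ := Ψ) ψ
    have h2 : ∀ x y, G Ψ (x + y) ψ = G Ψ x ψ + G Ψ y ψ := h1
    have h3 : ∀ (a : ZMod 2) x, G Ψ (a • x) ψ = a * G Ψ x ψ := fun a x => add_smul' h1 a x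
    rw [lin, h2, h2, h2, h3, h3, h3, h3]
  have hinj' : Function.Injective (lin φ1 φ2 κ1 κ2) := by
    apply inj_of_ker (lin_add _ _ _ _)
    intro c hc
    have z1 := hexp c φ2
    have z2 := hexp c φ1
    have z0 : ∀ ψ, G Ψ 0 ψ = 0 := fun ψ => zero_dotProduct _
    rw [hc, z0, hG, G_s H, g12, g22, mul_one, mul_zero, mul_zero, mul_zero, add_zero, add_zero,
      add_zero] at z1
    rw [hc, z0, hG', G_s H, g11, g21, mul_one, mul_zero, mul_zero, mul_zero, add_zero, add_zero,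
      zero_add] at z2
    have z3 : lin φ1 φ2 h k ![c 2 * G Ψ h φ2 + c 3 * G Ψ k φ2,
        c 2 * G Ψ h φ1 + c 3 * G Ψ k φ1, c 2, c 3] = lin φ1 φ2 h k 0 := by
      have : lin φ1 φ2 h k 0 = 0 := by simp [lin]
      rw [this, ← hc]
      simp only [lin, Matrix.cons_val, ← z1, ← z2, zero_smul, zero_add, hκ1, hκ2, smul_add,
        add_smul, mul_smul]
      abel
    have z4 := hinj z3
    funext i
    fin_cases i
    · exact z1.symm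
    · exact z2.symm
    · exact congrFun z4 2
    · exact congrFun z4 3
  have hs := Finite.injective_iff_surjective.mp hinj'
  rcases bool_cases (G Ψ κ1 κ2) with hγ | hγ
  · -- rank two
    have v1 : vv Ψ κ1 = 0 := by
      by_contra hv
      obtain ⟨ψ, hψ⟩ := G_nd H hv
      obtain ⟨c, rfl⟩ := hs ψ
      rw [hexp, G_comm H φ1, g11, G_comm H φ2, g12, G_s H, G_comm H κ2, hγ] at hψ
      simp at hψ
    have v2 : vv Ψ κ2 = 0 := by
      by_contra hv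
      obtain ⟨ψ, hψ⟩ := G_nd H hv
      obtain ⟨c, rfl⟩ := hs ψ
      rw [hexp, G_comm H φ1, g21, G_comm H φ2, g22, G_s H, hγ] at hψ
      simp at hψ
    exact case2 H hinj' v1 v2 hG
  · -- rank four
    apply case4 H
    apply Finite.surjective_of_injective
    apply inj_of_ker (vv_add Ψ)
    intro φ hφ
    obtain ⟨c, rfl⟩ := hs φ
    have w0 := hexp c φ2
    have w1 := hexp c φ1
    have w2 := hexp c κ2
    have w3 := hexp c κ1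
    rw [G_vz H hφ] at w0 w1 w2 w3
    rw [hG, G_s H, g12, g22] at w0
    rw [hG', G_s H, g11, g21] at w1
    rw [G_comm H φ1, g21, G_comm H φ2, g22, hγ, G_s H] at w2
    rw [G_comm H φ1, g11, G_comm H φ2, g12, G_comm H κ2, hγ, G_s H] at w3
    simp at w0 w1 w2 w3
    have : c = 0 := by
      funext i
      fin_cases i
      · exact w0.symm
      · exact w1.symm
      · exact w2.symm
      · exact w3.symm
    rw [this]
    simp [lin]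

end

/-- Orthogonal cocycles on `F_2^4` are bilinear. -/
theorem Coc.bilinear {Ψ : V → V → V} (H : Coc Ψ) :
    (∀ g, Addi (Ψ g)) ∧ (∀ h, Addi (fun g => Ψ g h)) := by
  have h := bilin H
  constructor
  · intro g x y
    have := h g x y
    unfold tt at this
    grind
  · intro u x y
    have := h x y u
    rw [tt_eq H] at this
    simp only
    grind

end Pool.Agent.Helper64.Rds
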