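import Pool.Agent.Helper64.Rds.Equiv
import Pool.Agent.Helper64.Rds.Data

/-!
# Normalised semifields of order 16
-/

set_option autoImplicit false

namespace Pool.Agent.Helper64.Rds

/-- Multiplication on codes. -/
def mulN (y1 y2 y3 z1 z2 z3 a b : ℕ) : ℕ :=
  lin4 b (lin4 2 4 8 3 b) (lin4 4 y1 y2 y3 b) (lin4 8 z1 z2 z3 b) a

/-- Multiplication on codes, packed constants. -/
def mulC (y z a b : ℕ) : ℕ :=
  mulN (y % 16) (y / 16 % 16) (y / 256 % 16) (z % 16) (z / 16 % 16) (z / 256 % 16) a b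

/-- Avoiding the span of the first two rows. -/
def avoid (b r : ℕ) : Bool :=
  !(Nat.beq r 0) && (!(Nat.beq r b) && (!(Nat.beq r (lin4 2 4 8 3 b)) &&
    !(Nat.beq r (b ^^^ lin4 2 4 8 3 b))))

/-- Third row test. -/
def chkY (y1 y2 y3 : ℕ) : Bool := allb (fun n => avoid (n + 1) (lin4 4 y1 y2 y3 (n + 1))) 15

/-- Fourth row test. -/
def chkZ (z1 z2 z3 : ℕ) : Bool := allb (fun n => avoid (n + 1) (lin4 8 z1 z2 z3 (n + 1))) 15

/-- Combined test. -/
def chkYZ (y z : ℕ) : Bool := allb (fun n => avoid (n + 1)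
  (lin4 4 (y % 16) (y / 16 % 16) (y / 256 % 16) (n + 1) ^^^
    lin4 8 (z % 16) (z / 16 % 16) (z / 256 % 16) (n + 1))) 15

/-- All elements of a list. -/
def allL {A : Type} (p : A → Bool) : List A → Bool
  | [] => true
  | a :: l => p a && allL p l

/-- Some element of a list. -/
def anyL {A : Type} (p : A → Bool) : List A → Bool
  | [] => false
  | a :: l => p a || anyL p l

theorem allL_spec {A : Type} {p : A → Bool} {l : List A} (h : allL p l = true) :
    ∀ a ∈ l, p a = true := by
  induction l with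
  | nil => simp
  | cons b l ih =>
    rw [allL, Bool.and_eq_true] at h
    intro a ha
    rcases List.mem_cons.mp ha with rfl | ha
    · exact h.1
    · exact ih h.2 a ha

theorem anyL_spec {A : Type} {p : A → Bool} {l : List A} (h : anyL p l = true) :
    ∃ a ∈ l, p a = true := by
  induction l with
  | nil => simp [anyL] at h
  | cons b l ih =>
    rw [anyL, Bool.or_eq_true] at h
    rcases h with h | h
    · exact ⟨b, List.mem_cons_self, h⟩
    · obtain ⟨a, ha, hp⟩ := ih h
      exact ⟨a, List.mem_cons_of_mem _ ha, hp⟩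

theorem LY_spec : allb (fun y3 => allb (fun y2 => allb (fun y1 => !(chkY y1 y2 y3) ||
    anyL (Nat.beq (y1 + 16 * y2 + 256 * y3)) LY) 16) 16) 16 = true := by decide +kernel

theorem LZ_spec : allb (fun y3 => allb (fun y2 => allb (fun y1 => !(chkZ y1 y2 y3) ||
    anyL (Nat.beq (y1 + 16 * y2 + 256 * y3)) LZ) 16) 16) 16 = true := by decide +kernel

theorem LYZ_spec : allL (fun y => allL (fun z => !(chkYZ y z) ||
    anyL (fun e => Nat.beq e.1 y && Nat.beq e.2.1 z) L36) LZ) LY = true := by decide +kernel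

/-- Column `i` of a packed matrix. -/
def colN (P i : ℕ) : ℕ := P / 16 ^ i % 16

/-- Application of a packed matrix. -/
def appN (P b : ℕ) : ℕ := lin4 (P % 16) (P / 16 % 16) (P / 256 % 16) (P / 4096 % 16) b

/-- Invertibility of a packed matrix. -/
def okP (P : ℕ) : Bool := okN (P % 16) (P / 16 % 16) (P / 256 % 16) (P / 4096 % 16)

/-- The isotopism test `F (P a) (Q b) = R (F' a b)` on the basis. -/
def isoChk (y z y' z' P Q R : ℕ) : Bool :=
  okP P && (okP Q && (okP R && allb (fun i => allb (fun j =>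
    Nat.beq (mulC y z (appN P (2 ^ i)) (appN Q (2 ^ j))) (appN R (mulC y' z' (2 ^ i) (2 ^ j)))) 4) 4))

theorem L36_spec : allL (fun e => Nat.blt e.2.2.1 3 && isoChk e.1 e.2.1 (base e.2.2.1).1
    (base e.2.2.1).2 e.2.2.2.1 e.2.2.2.2.1 e.2.2.2.2.2) L36 = true := by
  decide +kernel

end Pool.Agent.Helper64.Rds
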