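import Pool.Agent.Helper64.Rds.Semi1

/-!
# Normalised semifields of order 16, vector level
-/

set_option autoImplicit false

namespace Pool.Agent.Helper64.Rds

/-- Companion matrix of `x^4 + x + 1`. -/
def CC (b : V) : V := lin (e 1) (e 2) (e 3) (e 0 + e 1) b

/-- Multiplication on vectors. -/
def fV (Y1 Y2 Y3 Z1 Z2 Z3 : V) (a b : V) : V :=
  lin b (CC b) (lin (e 2) Y1 Y2 Y3 b) (lin (e 3) Z1 Z2 Z3 b) a

/-- Multiplication on vectors, packed constants. -/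
def fc (y z : ℕ) : V → V → V :=
  fV (dc (y % 16)) (dc (y / 16 % 16)) (dc (y / 256 % 16))
    (dc (z % 16)) (dc (z / 16 % 16)) (dc (z / 256 % 16))

/-- Packed linear map. -/
def lc (P : ℕ) : V → V :=
  lin (dc (P % 16)) (dc (P / 16 % 16)) (dc (P / 256 % 16)) (dc (P / 4096 % 16))

theorem cd_e : cd (e 0) = 1 ∧ cd (e 1) = 2 ∧ cd (e 2) = 4 ∧ cd (e 3) = 8 ∧
    cd (e 0 + e 1) = 3 := by decide +kernel

theorem cd_CC (b : V) : cd (CC b) = lin4 2 4 8 3 (cd b) := by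
  obtain ⟨-, h1, h2, h3, h4⟩ := cd_e
  rw [CC, cd_lin, h1, h2, h3, h4]

theorem cd_fV (Y1 Y2 Y3 Z1 Z2 Z3 a b : V) : cd (fV Y1 Y2 Y3 Z1 Z2 Z3 a b) =
    mulN (cd Y1) (cd Y2) (cd Y3) (cd Z1) (cd Z2) (cd Z3) (cd a) (cd b) := by
  obtain ⟨-, h1, h2, h3, h4⟩ := cd_e
  rw [fV, cd_lin, cd_CC, cd_lin, cd_lin, h2, h3, mulN]

theorem cd_dc_mod (n : ℕ) : cd (dc (n % 16)) = n % 16 := cd_dc _ (Nat.mod_lt _ (by norm_num))

theorem cd_fc (y z : ℕ) (a b : V) : cd (fc y z a b) = mulC y z (cd a) (cd b) := by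
  rw [fc, cd_fV, mulC]
  simp only [cd_dc_mod]

theorem cd_lc (P : ℕ) (a : V) : cd (lc P a) = appN P (cd a) := by
  rw [lc, cd_lin, appN]
  simp only [cd_dc_mod]

theorem lc_add (P : ℕ) : Addi (lc P) := lin_add _ _ _ _

theorem lc_inj {P : ℕ} (h : okP P = true) : Function.Injective (lc P) := by
  apply inj_of_okN
  simp only [cd_dc_mod]
  exact h

theorem fV_r (Y1 Y2 Y3 Z1 Z2 Z3 b : V) : Addi (fun a => fV Y1 Y2 Y3 Z1 Z2 Z3 a b) :=
  lin_add _ _ _ _

theorem fV_l (Y1 Y2 Y3 Z1 Z2 Z3 a : V) : Addi (fV Y1 Y2 Y3 Z1 Z2 Z3 a) := by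
  intro x y
  unfold fV CC
  rw [lin_add (e 1), lin_add (e 2), lin_add (e 3)]
  simp only [lin, smul_add]
  abel

theorem biadd_ext {F F' : V → V → V} (hl : ∀ g, Addi (F g)) (hr : ∀ h, Addi (fun g => F g h))
    (hl' : ∀ g, Addi (F' g)) (hr' : ∀ h, Addi (fun g => F' g h))
    (h : ∀ i j, F (e i) (e j) = F' (e i) (e j)) : ∀ a b, F a b = F' a b := by
  have h1 : ∀ i b, F (e i) b = F' (e i) b := fun i b =>
    congrFun (add_ext (hl (e i)) (hl' (e i)) (h i)) b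
  intro a b
  exact congrFun (add_ext (hr b) (hr' b) (fun i => h1 i b)) a

theorem cd_ei (i : Fin 4) : cd (e i) = 2 ^ i.val := by
  revert i
  decide +kernel

theorem iso_of_chk {y z y' z' P Q R : ℕ} (h : isoChk y z y' z' P Q R = true) :
    Function.Injective (lc P) ∧ Function.Injective (lc Q) ∧ Function.Injective (lc R) ∧
    ∀ a b, fc y z (lc P a) (lc Q b) = lc R (fc y' z' a b) := by
  simp only [isoChk, Bool.and_eq_true] at h
  obtain ⟨hP, hQ, hR, h⟩ := h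
  refine ⟨lc_inj hP, lc_inj hQ, lc_inj hR, ?_⟩
  apply biadd_ext (F := fun a b => fc y z (lc P a) (lc Q b)) (F' := fun a b => lc R (fc y' z' a b))
  · intro g x x'
    simp only
    rw [lc_add Q]
    exact fV_l _ _ _ _ _ _ _ _ _
  · intro g x x'
    simp only
    rw [lc_add P]
    exact fV_r _ _ _ _ _ _ _ _ _
  · intro g x x'
    simp only
    rw [← lc_add R]
    congr 1
    exact fV_l _ _ _ _ _ _ _ _ _
  · intro g x x'
    simp only
    rw [← lc_add R]
    congr 1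
    exact fV_r _ _ _ _ _ _ _ _ _
  · intro i j
    apply cd_inj
    have := allb_spec (allb_spec h i.val i.isLt) j.val j.isLt
    rw [Nat.beq_eq] at this
    rw [cd_fc, cd_lc, cd_lc, cd_lc, cd_fc, cd_ei, cd_ei, this]

/-- Normalised nonsingular bilinear maps. -/
structure Norm (F : V → V → V) : Prop where
  nsb : Nsb F
  r0 : ∀ a, F a (e 0) = a
  l0 : ∀ b, F (e 0) b = b
  l1 : ∀ b, F (e 1) b = CC b

theorem allb_of {p : ℕ → Bool} {n : ℕ} (h : ∀ m < n, p m = true) : allb p n = true := by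
  induction n with
  | zero => rfl
  | succ n ih =>
    rw [allb, Bool.and_eq_true]
    exact ⟨h n (Nat.lt_succ_self n), ih (fun m hm => h m (Nat.lt_succ_of_lt hm))⟩

theorem not_beq {m n : ℕ} : (!(Nat.beq m n)) = true ↔ m ≠ n := by
  rw [Bool.not_eq_true', ne_eq, ← Nat.beq_eq, Bool.not_eq_true]

theorem avoid_of {b r : V} (h0 : r ≠ 0) (h1 : r ≠ b) (h2 : r ≠ CC b) (h3 : r ≠ b + CC b) :
    avoid (cd b) (cd r) = true := by
  unfold avoid
  rw [← cd_CC, ← cd_add]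
  simp only [Bool.and_eq_true, not_beq]
  exact ⟨fun h => h0 (cd_eq_zero.mp h), fun h => h1 (cd_inj h), fun h => h2 (cd_inj h),
    fun h => h3 (cd_inj h)⟩

theorem norm_avoid {F : V → V → V} (h : Norm F) {x b : V} (hb : b ≠ 0) (h0 : x ≠ 0)
    (h1 : x ≠ e 0) (h2 : x ≠ e 1) (h3 : x ≠ e 0 + e 1) : avoid (cd b) (cd (F x b)) = true := by
  have key : ∀ w, F w b = F x b → x = w := fun w hw => h.nsb.injr hb hw.symm
  apply avoid_of
  · intro h'
    exact h0 (key 0 (by rw [h', h.nsb.zl]))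
  · intro h'
    exact h1 (key (e 0) (by rw [h', h.l0]))
  · intro h'
    exact h2 (key (e 1) (by rw [h', h.l1]))
  · intro h'
    refine h3 (key (e 0 + e 1) ?_)
    have := h.nsb.r b (e 0) (e 1)
    simp only at this
    rw [h', this, h.l0, h.l1]

theorem norm_iso {F : V → V → V} (h : Norm F) : ∃ i < 3, ∃ P Q R : V → V, Addi P ∧ Addi Q ∧
    Addi R ∧ Function.Injective P ∧ Function.Injective Q ∧ Function.Injective R ∧
    ∀ a b, F (P a) (Q b) = R (fc (base i).1 (base i).2 a b) := by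
  obtain ⟨-, c1, c2, c3, c4⟩ := cd_e
  -- rows
  have hrow : ∀ x b, F x b = lin x (F x (e 1)) (F x (e 2)) (F x (e 3)) b := by
    intro x b
    rw [eq_lin (h.nsb.l x) b, h.r0]
  have hF : ∀ a b, F a b = fV (F (e 2) (e 1)) (F (e 2) (e 2)) (F (e 2) (e 3))
      (F (e 3) (e 1)) (F (e 3) (e 2)) (F (e 3) (e 3)) a b := by
    intro a b
    have := eq_lin (h.nsb.r b) a
    rw [this, fV, h.l0, h.l1, hrow (e 2) b, hrow (e 3) b]
  set Y1 := F (e 2) (e 1)
  set Y2 := F (e 2) (e 2)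
  set Y3 := F (e 2) (e 3)
  set Z1 := F (e 3) (e 1)
  set Z2 := F (e 3) (e 2)
  set Z3 := F (e 3) (e 3)
  have b1 := cd_lt Y1
  have b2 := cd_lt Y2
  have b3 := cd_lt Y3
  have b4 := cd_lt Z1
  have b5 := cd_lt Z2
  have b6 := cd_lt Z3
  have hb : ∀ n < 15, dc (n + 1) ≠ 0 ∧ cd (dc (n + 1)) = n + 1 := by
    intro n hn
    have := cd_dc (n + 1) (by omega)
    refine ⟨fun h0 => ?_, this⟩
    rw [h0, cd_zero] at this
    omega
  have hY : chkY (cd Y1) (cd Y2) (cd Y3) = true := by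
    apply allb_of
    intro n hn
    obtain ⟨h1, h2⟩ := hb n hn
    have := norm_avoid h h1 (x := e 2) (by decide +kernel) (by decide +kernel) (by decide +kernel)
      (by decide +kernel)
    rwa [hrow, cd_lin, c2, h2] at this
  have hZ : chkZ (cd Z1) (cd Z2) (cd Z3) = true := by
    apply allb_of
    intro n hn
    obtain ⟨h1, h2⟩ := hb n hn
    have := norm_avoid h h1 (x := e 3) (by decide +kernel) (by decide +kernel) (by decide +kernel)
      (by decide +kernel)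
    rwa [hrow, cd_lin, c3, h2] at this
  obtain ⟨y, hy⟩ : ∃ y, y = cd Y1 + 16 * cd Y2 + 256 * cd Y3 := ⟨_, rfl⟩
  obtain ⟨z, hz⟩ : ∃ z, z = cd Z1 + 16 * cd Z2 + 256 * cd Z3 := ⟨_, rfl⟩
  have y1 : y % 16 = cd Y1 := by omega
  have y2 : y / 16 % 16 = cd Y2 := by omega
  have y3 : y / 256 % 16 = cd Y3 := by omega
  have z1 : z % 16 = cd Z1 := by omega
  have z2 : z / 16 % 16 = cd Z2 := by omega
  have z3 : z / 256 % 16 = cd Z3 := by omega
  have hyL : y ∈ LY := by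
    have h1 := allb_spec (allb_spec (allb_spec LY_spec _ b3) _ b2) _ b1
    rw [hY, Bool.not_true, Bool.false_or, ← hy] at h1
    obtain ⟨a, ha, hya⟩ := anyL_spec h1
    rw [Nat.beq_eq] at hya
    rwa [hya]
  have hzL : z ∈ LZ := by
    have h1 := allb_spec (allb_spec (allb_spec LZ_spec _ b6) _ b5) _ b4
    rw [hZ, Bool.not_true, Bool.false_or, ← hz] at h1
    obtain ⟨a, ha, hya⟩ := anyL_spec h1
    rw [Nat.beq_eq] at hya
    rwa [hya]
  have hYZ : chkYZ y z = true := by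
    apply allb_of
    intro n hn
    obtain ⟨h1, h2⟩ := hb n hn
    have := norm_avoid h h1 (x := e 2 + e 3) (by decide +kernel) (by decide +kernel)
      (by decide +kernel) (by decide +kernel)
    have h3 := h.nsb.r (dc (n + 1)) (e 2) (e 3)
    simp only at h3
    rw [h3, hrow (e 2), hrow (e 3), cd_add, cd_lin, cd_lin, c2, c3, h2] at this
    rw [y1, y2, y3, z1, z2, z3]
    exact this
  have h1 := allL_spec (allL_spec LYZ_spec y hyL) z hzL
  rw [hYZ, Bool.not_true, Bool.false_or] at h1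
  obtain ⟨E, hE, hEe⟩ := anyL_spec h1
  rw [Bool.and_eq_true, Nat.beq_eq, Nat.beq_eq] at hEe
  have h2 := allL_spec L36_spec E hE
  rw [Bool.and_eq_true] at h2
  obtain ⟨hi, hiso⟩ := h2
  rw [Nat.blt_eq] at hi
  rw [hEe.1, hEe.2] at hiso
  obtain ⟨hP, hQ, hR, hid⟩ := iso_of_chk hiso
  refine ⟨E.2.2.1, hi, lc E.2.2.2.1, lc E.2.2.2.2.1, lc E.2.2.2.2.2, lc_add _, lc_add _, lc_add _,
    hP, hQ, hR, ?_⟩
  intro a b
  rw [← hid, hF, fc, y1, y2, y3, z1, z2, z3]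
  simp only [dc_cd]

end Pool.Agent.Helper64.Rds
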