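import Pool.Agent.Helper64.Rds.Semi2

/-!
# Normalising nonsingular bilinear maps
-/

set_option autoImplicit false

namespace Pool.Agent.Helper64.Rds

/-- Second elementary invariant of a matrix given by columns. -/
def e2V (a b c d : V) : ZMod 2 :=
  a 0 * b 1 + a 1 * b 0 + (a 0 * c 2 + a 2 * c 0) + (a 0 * d 3 + a 3 * d 0) +
  (b 1 * c 2 + b 2 * c 1) + (b 1 * d 3 + b 3 * d 1) + (c 2 * d 3 + c 3 * d 2)

theorem e2_three (a b c d a' b' c' d' a'' b'' c'' d'' : V) :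
    e2V (a + (a' + a'')) (b + (b' + b'')) (c + (c' + c'')) (d + (d' + d'')) =
    e2V (a + a') (b + b') (c + c') (d + d') + e2V (a + a'') (b + b'') (c + c'') (d + d'') +
    e2V (a' + a'') (b' + b'') (c' + c'') (d' + d'') - e2V a b c d - e2V a' b' c' d' -
    e2V a'' b'' c'' d'' := by
  simp only [e2V, Pi.add_apply]
  ring

/-- The same invariant on codes. -/
def e2N (a b c d : ℕ) : ℕ :=
  ((a % 2) * (b / 2 % 2) + (a / 2 % 2) * (b % 2) +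
  ((a % 2) * (c / 4 % 2) + (a / 4 % 2) * (c % 2)) +
  ((a % 2) * (d / 8 % 2) + (a / 8 % 2) * (d % 2)) +
  ((b / 2 % 2) * (c / 4 % 2) + (b / 4 % 2) * (c / 2 % 2)) +
  ((b / 2 % 2) * (d / 8 % 2) + (b / 8 % 2) * (d / 2 % 2)) +
  ((c / 4 % 2) * (d / 8 % 2) + (c / 8 % 2) * (d / 4 % 2))) % 2

theorem e2N_eq (a b c d : V) : (e2N (cd a) (cd b) (cd c) (cd d) : ZMod 2) = e2V a b c d := by
  obtain ⟨a0, a1, a2, a3⟩ := cd_bits a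
  obtain ⟨b0, b1, b2, b3⟩ := cd_bits b
  obtain ⟨c0, c1, c2, c3⟩ := cd_bits c
  obtain ⟨d0, d1, d2, d3⟩ := cd_bits d
  unfold e2N e2V
  rw [a0, a1, a2, a3, b0, b1, b2, b3, c0, c1, c2, c3, d0, d1, d2, d3, ZMod.natCast_mod]
  push_cast
  simp only [ZMod.natCast_zmod_val]

/-- `X^4 + X + 1` kills the code `b`. -/
def g1N (c0 c1 c2 c3 b : ℕ) : Bool :=
  Nat.beq (lin4 c0 c1 c2 c3 (lin4 c0 c1 c2 c3 (lin4 c0 c1 c2 c3 (lin4 c0 c1 c2 c3 b))))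
    (lin4 c0 c1 c2 c3 b ^^^ b)

/-- `X^4 + X^3 + 1` kills the code `b`. -/
def g2N (c0 c1 c2 c3 b : ℕ) : Bool :=
  Nat.beq (lin4 c0 c1 c2 c3 (lin4 c0 c1 c2 c3 (lin4 c0 c1 c2 c3 (lin4 c0 c1 c2 c3 b))))
    (lin4 c0 c1 c2 c3 (lin4 c0 c1 c2 c3 (lin4 c0 c1 c2 c3 b)) ^^^ b)

/-- One of the good polynomial identities holds. -/
def goodN (c0 c1 c2 c3 : ℕ) : Bool :=
  allb (fun i => g1N c0 c1 c2 c3 (2 ^ i)) 4 || (allb (fun i => g2N c0 c1 c2 c3 (2 ^ i)) 4 ||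
    allb (fun i => g2N (c0 ^^^ 1) (c1 ^^^ 2) (c2 ^^^ 4) (c3 ^^^ 8) (2 ^ i)) 4)

theorem good_spec : allb (fun c0 => !(ok1 c0 && ok1 (c0 ^^^ 1)) ||
    allb (fun c1 => !(ok2 c0 c1 && ok2 (c0 ^^^ 1) (c1 ^^^ 2)) ||
    allb (fun c2 => !(ok3 c0 c1 c2 && ok3 (c0 ^^^ 1) (c1 ^^^ 2) (c2 ^^^ 4)) ||
    allb (fun c3 => !(ok4 c0 c1 c2 c3 && ok4 (c0 ^^^ 1) (c1 ^^^ 2) (c2 ^^^ 4) (c3 ^^^ 8)) ||
      (Nat.beq (e2N c0 c1 c2 c3) 1 || goodN c0 c1 c2 c3)) 16) 16) 16) 16 = true := by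
  decide +kernel

end Pool.Agent.Helper64.Rds
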