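import Pool.Agent.Helper64.Rds.Semi3

/-!
# Normalising nonsingular bilinear maps, vector level
-/

set_option autoImplicit false

namespace Pool.Agent.Helper64.Rds

theorem inj_lin {X : V → V} (h : Addi X) (hi : Function.Injective X) :
    Function.Injective (lin (X (e 0)) (X (e 1)) (X (e 2)) (X (e 3))) := by
  intro x y hxy
  rw [← eq_lin h, ← eq_lin h] at hxy
  exact hi hxy

theorem basis_ext {f g : V → V} (hf : Addi f) (hg : Addi g)
    (h : ∀ i < 4, cd (f (dc (2 ^ i))) = cd (g (dc (2 ^ i)))) : ∀ x, f x = g x := by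
  intro x
  refine congrFun (add_ext hf hg fun i => ?_) x
  have h1 : dc (2 ^ i.val) = e i := by
    rw [← cd_ei, dc_cd]
  have := h i.val i.isLt
  rw [h1] at this
  exact cd_inj this

theorem g1_V {X : V → V} (h : Addi X)
    (hg : allb (fun i => g1N (cd (X (e 0))) (cd (X (e 1))) (cd (X (e 2))) (cd (X (e 3)))
      (2 ^ i)) 4 = true) : ∀ x, X (X (X (X x))) = X x + x := by
  have hm := cd_map h
  generalize cd (X (e 0)) = c0 at hg hm
  generalize cd (X (e 1)) = c1 at hg hm
  generalize cd (X (e 2)) = c2 at hg hm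
  generalize cd (X (e 3)) = c3 at hg hm
  apply basis_ext
  · intro a b
    simp only [h _ _]
  · intro a b
    simp only [h _ _]
    abel
  · intro i hi
    have := allb_spec hg i hi
    have hlt : 2 ^ i < 16 := by
      interval_cases i <;> norm_num
    rw [g1N, Nat.beq_eq] at this
    simp only [cd_add, hm, cd_dc _ hlt]
    exact this

theorem g2_V {X : V → V} (h : Addi X)
    (hg : allb (fun i => g2N (cd (X (e 0))) (cd (X (e 1))) (cd (X (e 2))) (cd (X (e 3)))
      (2 ^ i)) 4 = true) : ∀ x, X (X (X (X x))) = X (X (X x)) + x := by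
  have hm := cd_map h
  generalize cd (X (e 0)) = c0 at hg hm
  generalize cd (X (e 1)) = c1 at hg hm
  generalize cd (X (e 2)) = c2 at hg hm
  generalize cd (X (e 3)) = c3 at hg hm
  apply basis_ext
  · intro a b
    simp only [h _ _]
  · intro a b
    simp only [h _ _]
    abel
  · intro i hi
    have := allb_spec hg i hi
    have hlt : 2 ^ i < 16 := by
      interval_cases i <;> norm_num
    rw [g2N, Nat.beq_eq] at this
    simp only [cd_add, hm, cd_dc _ hlt]
    exact this

theorem good_V {X : V → V} (h : Addi X) (hi : Function.Injective X)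
    (hi' : Function.Injective (fun x => X x + x))
    (he : e2V (X (e 0)) (X (e 1)) (X (e 2)) (X (e 3)) = 0) :
    (∀ x, X (X (X (X x))) = X x + x) ∨ (∀ x, X (X (X (X x))) = X (X (X x)) + x) ∨
    (∀ Y : V → V, (∀ x, Y x = X x + x) → ∀ x, Y (Y (Y (Y x))) = Y (Y (Y x)) + x) := by
  obtain ⟨d0, d1, d2, d3, -⟩ := cd_e
  have o1 := okN_of_inj (inj_lin h hi)
  have hY : Addi (fun x => X x + x) := by
    intro a b
    simp only
    rw [h]
    abel
  have o2 := okN_of_inj (inj_lin hY hi')
  simp only [cd_add, d0, d1, d2, d3] at o2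
  simp only [okN, Bool.and_eq_true] at o1 o2
  obtain ⟨o11, o12, o13, o14⟩ := o1
  obtain ⟨o21, o22, o23, o24⟩ := o2
  have h1 := allb_spec good_spec _ (cd_lt (X (e 0)))
  rw [o11, o21, Bool.and_true, Bool.not_true, Bool.false_or] at h1
  have h2 := allb_spec h1 _ (cd_lt (X (e 1)))
  rw [o12, o22, Bool.and_true, Bool.not_true, Bool.false_or] at h2
  have h3 := allb_spec h2 _ (cd_lt (X (e 2)))
  rw [o13, o23, Bool.and_true, Bool.not_true, Bool.false_or] at h3
  have h4 := allb_spec h3 _ (cd_lt (X (e 3)))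
  rw [o14, o24, Bool.and_true, Bool.not_true, Bool.false_or] at h4
  have h5 : Nat.beq (e2N (cd (X (e 0))) (cd (X (e 1))) (cd (X (e 2))) (cd (X (e 3)))) 1 = false := by
    rw [← Bool.not_eq_true, Nat.beq_eq]
    intro h6
    have := e2N_eq (X (e 0)) (X (e 1)) (X (e 2)) (X (e 3))
    rw [h6, he] at this
    exact absurd this (by decide)
  rw [h5, Bool.false_or, goodN, Bool.or_eq_true, Bool.or_eq_true] at h4
  rcases h4 with h4 | h4 | h4
  · exact Or.inl (g1_V h h4)
  · exact Or.inr (Or.inl (g2_V h h4))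
  · refine Or.inr (Or.inr ?_)
    intro Y hYd
    obtain rfl : Y = fun x => X x + x := funext hYd
    refine g2_V hY ?_
    simp only [cd_add, d0, d1, d2, d3]
    exact h4

theorem exists_inv {f : V → V} (h : Addi f) (hi : Function.Injective f) :
    ∃ g : V → V, Addi g ∧ Function.Injective g ∧ (∀ x, f (g x) = x) ∧ ∀ x, g (f x) = x := by
  have hs := Finite.injective_iff_surjective.mp hi
  choose g hg using hs
  refine ⟨g, ?_, ?_, hg, fun x => hi (hg _)⟩
  · intro a b
    apply hi
    rw [h, hg, hg, hg]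
  · intro a b hab
    rw [← hg a, ← hg b, hab]

/-- Some ratio of two rows satisfies `Y^4 = Y + 1`. -/
theorem exists_ratio {F : V → V → V} (h : Nsb F) : ∃ p q : V, p ≠ 0 ∧ q ≠ 0 ∧ p ≠ q ∧
    ∃ Y : V → V, Addi Y ∧ (∀ x, F p (Y x) = F q x) ∧ ∀ x, Y (Y (Y (Y x))) = Y x + x := by
  have e0 : (e 0 : V) ≠ 0 := by decide +kernel
  obtain ⟨M, hM, hMi, hM1, hM2⟩ := exists_inv (h.l (e 0)) (h.inj e0)
  have hr : ∀ a b x, F (a + b) x = F a x + F b x := fun a b x => h.r x a b
  have hX : ∀ a, Addi (fun x => M (F a x)) := by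
    intro a x y
    simp only
    rw [h.l a, hM]
  have hXi : ∀ a, a ≠ 0 → Function.Injective (fun x => M (F a x)) := by
    intro a ha x y hxy
    exact h.inj ha (hMi hxy)
  have hX1 : ∀ a, a ≠ e 0 → Function.Injective (fun x => M (F a x) + x) := by
    intro a ha
    have : (fun x => M (F a x) + x) = fun x => M (F (a + e 0) x) := by
      funext x
      rw [hr, hM, hM2]
    rw [this]
    exact hXi _ (fun h0 => ha (add_eq_zero.mp h0))
  -- the good row
  have key : ∀ a, a ≠ 0 → a ≠ e 0 → e2V (M (F a (e 0))) (M (F a (e 1))) (M (F a (e 2)))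
      (M (F a (e 3))) = 0 → ∃ p q : V, p ≠ 0 ∧ q ≠ 0 ∧ p ≠ q ∧
    ∃ Y : V → V, Addi Y ∧ (∀ x, F p (Y x) = F q x) ∧ ∀ x, Y (Y (Y (Y x))) = Y x + x := by
    intro a ha ha0 he
    have inv : ∀ b, b ≠ 0 → b ≠ e 0 → (∀ x, M (F b (M (F b (M (F b (M (F b x))))))) =
        M (F b (M (F b (M (F b x))))) + x) → ∃ p q : V, p ≠ 0 ∧ q ≠ 0 ∧ p ≠ q ∧
        ∃ Y : V → V, Addi Y ∧ (∀ x, F p (Y x) = F q x) ∧ ∀ x, Y (Y (Y (Y x))) = Y x + x := by
      intro b hb hb0 hid
      obtain ⟨Y, hY, hYi, hY1, hY2⟩ := exists_inv (hX b) (hXi b hb)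
      refine ⟨b, e 0, hb, e0, hb0, Y, hY, ?_, ?_⟩
      · intro x
        apply hMi
        rw [hM2]
        exact hY1 x
      · intro x
        have h1 := hid (Y (Y (Y (Y x))))
        have hY1' : ∀ x, M (F b (Y x)) = x := hY1
        simp only [hY1'] at h1
        rw [h1]
        grind
    rcases good_V (hX a) (hXi a ha) (hX1 a ha0) he with h1 | h1 | h1
    · refine ⟨e 0, a, e0, ha, fun h0 => ha0 h0.symm, fun x => M (F a x), hX a, ?_, h1⟩
      intro x
      exact hM1 _
    · exact inv a ha ha0 h1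
    · refine inv (a + e 0) (fun h0 => ha0 (add_eq_zero.mp h0)) (fun h0 => ha (by simpa using h0)) ?_
      exact h1 (fun x => M (F (a + e 0) x)) (fun x => by rw [hr, hM, hM2])
  by_contra hcon
  have hone : ∀ a, a ≠ 0 → a ≠ e 0 → e2V (M (F a (e 0))) (M (F a (e 1))) (M (F a (e 2)))
      (M (F a (e 3))) = 1 := by
    intro a h1 h2
    rw [← ne_zero_iff]
    exact fun h3 => hcon (key a h1 h2 h3)
  have k1 := hone (e 1) (by decide +kernel) (by decide +kernel)
  have k2 := hone (e 2) (by decide +kernel) (by decide +kernel)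
  have k3 := hone (e 3) (by decide +kernel) (by decide +kernel)
  have k4 := hone (e 1 + e 2) (by decide +kernel) (by decide +kernel)
  have k5 := hone (e 1 + e 3) (by decide +kernel) (by decide +kernel)
  have k6 := hone (e 2 + e 3) (by decide +kernel) (by decide +kernel)
  have k7 := hone (e 1 + (e 2 + e 3)) (by decide +kernel) (by decide +kernel)
  simp only [hr, hM _ _] at k4 k5 k6 k7
  rw [e2_three, k1, k2, k3, k4, k5, k6] at k7
  exact absurd k7 (by decide)

theorem cyc : ∀ n : V, n ≠ 0 → ∃ q : V, lin n (CC n) (CC (CC n)) (CC (CC (CC n))) q = e 0 := by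
  decide +kernel

/-- Every nonsingular bilinear map is isotopic to a normalised one. -/
theorem exists_norm {F : V → V → V} (h : Nsb F) : ∃ F', Norm F' ∧ ∃ P Q R : V → V, Addi P ∧
    Addi Q ∧ Addi R ∧ Function.Injective P ∧ Function.Injective Q ∧ Function.Injective R ∧
    ∀ a b, F (P a) (Q b) = R (F' a b) := by
  have e0 : (e 0 : V) ≠ 0 := by decide +kernel
  obtain ⟨p, q, hp, hq, hpq, Y, hY, hYF, hY4⟩ := exists_ratio h
  set L : V → V := lin (e 0) (Y (e 0)) (Y (Y (e 0))) (Y (Y (Y (e 0)))) with hL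
  have La : Addi L := lin_add _ _ _ _
  have L0 : L (e 0) = e 0 := by simp [hL, lin, e]
  have L1 : L (e 1) = Y (e 0) := by simp [hL, lin, e]
  have L2 : L (e 2) = Y (Y (e 0)) := by simp [hL, lin, e]
  have L3 : L (e 3) = Y (Y (Y (e 0))) := by simp [hL, lin, e]
  have C0 : CC (e 0) = e 1 := by decide +kernel
  have C1 : CC (e 1) = e 2 := by decide +kernel
  have C2 : CC (e 2) = e 3 := by decide +kernel
  have C3 : CC (e 3) = e 0 + e 1 := by decide +kernel
  have Ca : Addi CC := lin_add _ _ _ _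
  have LC : ∀ x, L (CC x) = Y (L x) := by
    intro x
    refine congrFun (add_ext (f := fun x => L (CC x)) (g := fun x => Y (L x)) ?_ ?_ ?_) x
    · intro a b
      simp only
      rw [Ca, La]
    · intro a b
      simp only
      rw [La, hY]
    · intro i
      fin_cases i
      · simp only [Fin.zero_eta]
        rw [C0, L1, L0]
      · simp only [Fin.mk_one]
        rw [C1, L2, L1]
      · simp only [Fin.reduceFinMk]
        rw [C2, L3, L2]
      · simp only [Fin.reduceFinMk]
        rw [C3, La, L0, L1, L3, hY4]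
        abel
  have Li : Function.Injective L := by
    apply inj_of_ker La
    intro n hn
    by_contra hne
    obtain ⟨c, hc⟩ := cyc n hne
    have z1 : L (CC n) = 0 := by rw [LC, hn, hY.zero]
    have z2 : L (CC (CC n)) = 0 := by rw [LC, z1, hY.zero]
    have z3 : L (CC (CC (CC n))) = 0 := by rw [LC, z2, hY.zero]
    have := congrArg L hc
    rw [L0, lin, La, La, La, add_smul' La, add_smul' La, add_smul' La, add_smul' La, hn, z1, z2,
      z3] at this
    simp only [smul_zero, add_zero] at this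
    exact e0 this.symm
  have Sa : Addi (fun x => F p (L x)) := by
    intro x y
    simp only
    rw [La, h.l]
  have Si : Function.Injective (fun x => F p (L x)) := fun x y hxy => Li (h.inj hp hxy)
  obtain ⟨S', S'a, S'i, SS', S'S⟩ := exists_inv Sa Si
  have SS'' : ∀ x, F p (L (S' x)) = x := SS'
  have S'S' : ∀ x, S' (F p (L x)) = x := S'S
  -- the map `α`
  have Da : Addi (fun a => F a (e 0)) := h.r _
  have Di : Function.Injective (fun a => F a (e 0)) := h.injr e0
  obtain ⟨D', D'a, D'i, DD', D'D⟩ := exists_inv Da Di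
  have D'D' : ∀ x, D' (F x (e 0)) = x := D'D
  set α : V → V := fun a => D' (F p (L a)) with hα
  have αa : Addi α := by
    intro x y
    simp only [hα]
    rw [La, h.l, D'a]
  have αi : Function.Injective α := fun x y hxy => Si (D'i hxy)
  have αp : α (e 0) = p := by
    simp only [hα]
    rw [L0, D'D']
  have αq : α (e 1) = q := by
    simp only [hα]
    rw [L1, hYF, D'D']
  refine ⟨fun a b => S' (F (α a) (L b)), ?_, α, L, fun x => F p (L x), αa, La, Sa, αi, Li, Si, ?_⟩
  · refine ⟨⟨?_, ?_, ?_⟩, ?_, ?_, ?_⟩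
    · intro g x y
      simp only
      rw [La, h.l, S'a]
    · intro g x y
      simp only
      rw [αa]
      have := h.r (L g) (α x) (α y)
      simp only at this
      rw [this, S'a]
    · intro g x hgx
      have h1 : F (α g) (L x) = 0 := S'i (by rw [hgx, S'a.zero])
      rcases h.ns _ _ h1 with h2 | h2
      · left
        exact αi (by rw [h2, αa.zero])
      · right
        exact Li (by rw [h2, La.zero])
    · intro a
      rw [L0]
      have : F (α a) (e 0) = F p (L a) := DD' _
      rw [this, S'S']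
    · intro b
      rw [αp, S'S']
    · intro b
      rw [αq, ← hYF, ← LC, S'S']
  · intro a b
    simp only
    rw [SS'']

/-- Classification up to isotopism. -/
theorem isotopic {F : V → V → V} (h : Nsb F) : ∃ i < 3, ∃ P Q R : V → V, Addi P ∧ Addi Q ∧
    Addi R ∧ Function.Injective P ∧ Function.Injective Q ∧ Function.Injective R ∧
    ∀ a b, F (P a) (Q b) = R (fc (base i).1 (base i).2 a b) := by
  obtain ⟨F', hF', P, Q, R, Pa, Qa, Ra, Pi, Qi, Ri, hPQR⟩ := exists_norm h
  obtain ⟨i, hi, P', Q', R', Pa', Qa', Ra', Pi', Qi', Ri', hPQR'⟩ := norm_iso hF'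
  refine ⟨i, hi, fun x => P (P' x), fun x => Q (Q' x), fun x => R (R' x), ?_, ?_, ?_,
    Pi.comp Pi', Qi.comp Qi', Ri.comp Ri', ?_⟩
  · intro x y
    simp only
    rw [Pa', Pa]
  · intro x y
    simp only
    rw [Qa', Qa]
  · intro x y
    simp only
    rw [Ra', Ra]
  · intro a b
    simp only
    rw [hPQR, hPQR']

end Pool.Agent.Helper64.Rds
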